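import Pool.Agent.MP_8c1b0d_co.CH
import Pool.Agent.MP_8c1b0d_co.CA

set_option autoImplicit false
set_option linter.unusedSectionVars false
open Finset Module

namespace Pool.Agent.MP_8c1b0d_co.RR

/-- a system of sites: `m` pairs the vertices, `o` pairs the half-edges -/
structure Sy (V : Type) where
  m : V → V
  o : V × Bool → V × Bool
  mm : ∀ v, m (m v) = v
  m_ne : ∀ v, m v ≠ v
  oo : ∀ h, o (o h) = h
  o_ne : ∀ h, o h ≠ h

/-- both colours are connected -/
def Sy.Sol {V : Type} (t : Sy V) (r : V → Bool) : Prop := (∀ v, r (t.m v) = r v) ∧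
  ∀ κ : Bool, ∀ g : V × Bool → ZMod 2, (∀ h, g (t.o h) = g h) →
    (∀ v, r v = κ → ∀ c, g (t.m v, c) = g (v, c)) →
    (∀ v, r v ≠ κ → g (v, true) = g (v, false)) → ∃ d, ∀ h, g h = d

/-- `t'` arises from `t` by exchanging `m` and the colour `k` on the set `sw v = some k` -/
structure Sy.Swp {V : Type} (t t' : Sy V) (sw : V → Option Bool) : Prop where
  m0 : ∀ v, sw v = none → t'.m v = t.m v
  m1 : ∀ v k, sw v = some k → t'.m v = (t.o (v, k)).1 ∧ t'.o (v, k) = (t.m v, k)
  o0 : ∀ v k, sw v ≠ some k → t'.o (v, k) = t.o (v, k)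

/-- the `m`-edges: ordinary ones `E` and a family `N` of disjoint alternating hexagons -/
structure Fam {V : Type} (t : Sy V) (E N : Type) where
  vx : (E × Bool) ⊕ (N × Fin 3 × Bool) ≃ V
  c : N → Bool
  m1 : ∀ e b, t.m (vx (.inl (e, b))) = vx (.inl (e, !b))
  m2 : ∀ f i b, t.m (vx (.inr (f, i, b))) = vx (.inr (f, i, !b))
  hx : ∀ f i, t.o (vx (.inr (f, i, true)), c f) = (vx (.inr (f, i + 1, false)), c f)

/-- invariant functions are constant -/
def Sy.Cn {V : Type} (t : Sy V) : Prop := ∀ (X : Type) (φ : V → X),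
  (∀ h, φ (t.o h).1 = φ h.1) → (∀ v, φ (t.m v) = φ v) → ∀ u v, φ u = φ v

/-- the site of a coordinate -/
def site {E N : Type} : E ⊕ N × Bool → E ⊕ N := Sum.map id Prod.fst

namespace Fam
variable {V E N : Type} [Fintype V] [DecidableEq V] [Fintype E] [DecidableEq E] [Fintype N]
  [DecidableEq N] {t : Sy V} (F : Fam t E N)

/-- ends of an ordinary edge -/
def u (e : E) (b : Bool) : V := F.vx (.inl (e, b))
/-- vertices of a hexagon -/
def w (f : N) (i : Fin 3) (b : Bool) : V := F.vx (.inr (f, i, b))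
/-- legs of a hexagon -/
def lg (f : N) (i : Fin 3) (b : Bool) : V × Bool := (F.w f i b, !F.c f)
/-- the node of a vertex -/
def ndv (v : V) : E ⊕ N := Sum.map Prod.fst Prod.fst (F.vx.symm v)
/-- the node of a half-edge -/
def nd (h : V × Bool) : E ⊕ N := F.ndv h.1
/-- the side of a vertex on its `m`-edge -/
def sd (v : V) : Bool := Sum.elim Prod.snd (fun p => p.2.2) (F.vx.symm v)
/-- inner half-edges of the hexagons -/
def In : Finset (V × Bool) := {h | ∃ f, F.ndv h.1 = .inr f ∧ h.2 = F.c f}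
/-- the swapped hexagons -/
def sw (I : N → Bool) (v : V) : Option Bool :=
  (F.ndv v).elim (fun _ => none) fun f => if I f then some (F.c f) else none

/-- the certificate produced by the min-max theorem -/
structure RC (Y : Type) [Fintype Y] [DecidableEq Y] where
  A0 : Finset V
  A1 : Finset V
  lab : V × Bool → Option Y
  D : Finset (V × Bool)
  Fl : Finset Y
  m0 : ∀ v ∈ A0, t.m v ∈ A0
  m1 : ∀ v ∈ A1, t.m v ∈ A1
  disj : Disjoint A0 A1
  surj : ∀ y, ∃ h, lab h = some y
  l0 : ∀ v ∉ A1, lab (v, true) = lab (v, false)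
  l1 : ∀ v ∉ A0, ∀ c, lab (t.m v, c) = lab (v, c)
  lX : ∀ v ∉ A0 ∪ A1, lab (v, false) ≠ none
  dX : ∀ h ∈ D, h.1 ∉ A0 ∪ A1
  cl : ∀ h y, lab h = some y → h ∉ D → lab (t.o h) = some y ∧ t.o h ∉ D
  big : ∀ y ∈ Fl, 6 ≤ #{v | v ∉ A0 ∪ A1 ∧ lab (v, false) = some y}
  ori : ∀ y ∈ Fl, ∃ d : V × Bool → Bool, (∀ v ∉ A1, d (v, true) ≠ d (v, false)) ∧
    (∀ v ∉ A0, ∀ c, d (t.m v, c) ≠ d (v, c)) ∧
    ∀ h, lab h = some y → h ∉ D → d (t.o h) ≠ d h
  node : ∀ f i b, F.w f i b ∉ A0 ∪ A1 ∧ lab (F.w f i b, false) = lab (F.w f 0 false, false)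
  cnt : 6 + #D + #A0 + #A1 ≤ 4 * Fintype.card Y + 2 * #Fl

variable (K : Type) [Field K] [CharP K 2]

/-- local coordinates -/
def pi : (V × Bool → K) →ₗ[K] V1 K (E ⊕ N × Bool) where
  toFun g :=
    (Sum.elim (fun e => g (F.u e false, false) + g (F.u e false, true))
      (fun p => if p.2 then g (F.lg p.1 1 true) + g (F.lg p.1 2 false)
        else g (F.lg p.1 0 false) + g (F.lg p.1 2 true)),
     Sum.elim (fun e => g (F.u e false, false) + g (F.u e true, false))
      (fun p => if p.2 then g (F.lg p.1 1 false) + g (F.lg p.1 1 true)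
        else g (F.lg p.1 0 false) + g (F.lg p.1 0 true)))
  map_add' a b := by
    ext (e | ⟨f, _ | _⟩) <;> simp only [Pi.add_apply, Fin.isValue, Sum.elim_inl, Prod.mk_add_mk, Sum.elim_inr, Bool.false_eq_true, ↓ reduceIte] <;> ring
  map_smul' r a := by
    ext (e | ⟨f, _ | _⟩) <;> simp only [Pi.smul_apply, smul_eq_mul, Fin.isValue, Sum.elim_inl, RingHom.id_apply, Prod.smul_mk, Sum.elim_inr, Bool.false_eq_true, ↓ reduceIte] <;> ring

/-- symmetric on inner edges and even at every node -/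
def EI : Submodule K (V × Bool → K) where
  carrier := {g | (∀ h ∈ F.In, g (t.o h) = g h) ∧ ∀ v, chi K {h | F.nd h = v} ⬝ᵥ g = 0}
  zero_mem' := ⟨fun _ _ => rfl, fun _ => dotProduct_zero _⟩
  add_mem' := fun ha hb => ⟨fun h hh => by simp only [Pi.add_apply, ha.1 h hh, hb.1 h hh],
    fun v => by rw [dotProduct_add, ha.2 v, hb.2 v, add_zero]⟩
  smul_mem' := fun r a ha => ⟨fun h hh => by simp only [Pi.smul_apply, ha.1 h hh],
    fun v => by rw [dotProduct_smul, ha.2 v, smul_zero]⟩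

/-- the isotropic space of the graph -/
def L : Submodule K (V1 K (E ⊕ N × Bool)) := (symm K t.o ⊓ F.EI K).map (F.pi K)

end Fam
end Pool.Agent.MP_8c1b0d_co.RR

set_option autoImplicit false
set_option linter.unusedSectionVars false
open Finset Module

namespace Pool.Agent.MP_8c1b0d_co.RR

namespace Fam
variable {V E N : Type} [Fintype V] [DecidableEq V] [Fintype E] [DecidableEq E] [Fintype N]
  [DecidableEq N] {t : Sy V} (F : Fam t E N)

theorem ndv_u (e : E) (b : Bool) : F.ndv (F.u e b) = .inl e := by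
  simp [ndv, u]
theorem ndv_w (f : N) (i : Fin 3) (b : Bool) : F.ndv (F.w f i b) = .inr f := by
  simp [ndv, w]
theorem cases (v : V) : (∃ e b, v = F.u e b) ∨ ∃ f i b, v = F.w f i b := by
  obtain ⟨⟨e, b⟩ | ⟨f, i, b⟩, rfl⟩ := F.vx.surjective v
  · exact .inl ⟨e, b, rfl⟩
  · exact .inr ⟨f, i, b, rfl⟩
theorem ndv_m (v : V) : F.ndv (t.m v) = F.ndv v := by
  obtain ⟨⟨e, b⟩ | ⟨f, i, b⟩, rfl⟩ := F.vx.surjective v
  · rw [F.m1]
    simp [ndv]
  · rw [F.m2]
    simp [ndv]
theorem sd_m (v : V) : F.sd (t.m v) = !F.sd v := by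
  obtain ⟨⟨e, b⟩ | ⟨f, i, b⟩, rfl⟩ := F.vx.surjective v
  · rw [F.m1]
    simp [sd]
  · rw [F.m2]
    simp [sd]
/-- from `hx` at `i - 1` and the involution -/
theorem hx' (f : N) (i : Fin 3) : t.o (F.w f (i + 1) false, F.c f) = (F.w f i true, F.c f) :=
  (congrArg t.o (F.hx f i).symm).trans (t.oo _)
theorem mem_In_w (f : N) (i : Fin 3) (b c : Bool) : (F.w f i b, c) ∈ F.In ↔ c = F.c f := by
  simp only [In, mem_filter, mem_univ, ndv_w, Sum.inr.injEq, exists_eq_left', true_and]
theorem not_In_u (e : E) (b c : Bool) : (F.u e b, c) ∉ F.In := by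
  simp only [In, mem_filter, mem_univ, ndv_u, reduceCtorEq, false_and, exists_false, and_false, not_false_eq_true]
theorem o_In (h : V × Bool) (hh : h ∈ F.In) : t.o h ∈ F.In ∧ F.nd (t.o h) = F.nd h := by
  obtain ⟨v, c⟩ := h
  rcases F.cases v with ⟨e, b, rfl⟩ | ⟨f, i, b, rfl⟩
  · exact absurd hh (F.not_In_u e b c)
  obtain rfl := (F.mem_In_w f i b c).1 hh
  cases b
  · obtain ⟨j, rfl⟩ : ∃ j, i = j + 1 := ⟨i - 1, (sub_add_cancel i 1).symm⟩
    rw [show t.o (F.w f (j + 1) false, F.c f) = (F.w f j true, F.c f) from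
      F.hx' f j]
    exact ⟨(F.mem_In_w ..).2 rfl, (F.ndv_w ..).trans (F.ndv_w ..).symm⟩
  · rw [show t.o (F.w f i true, F.c f) = (F.w f (i + 1) false, F.c f) from
      F.hx f i]
    exact ⟨(F.mem_In_w ..).2 rfl, (F.ndv_w ..).trans (F.ndv_w ..).symm⟩

theorem g1_s1 (e : E) : site (.inl e : E ⊕ N × Bool) = .inl e := rfl

theorem g1_s2 (f : N) (b : Bool) : site (.inr (f, b) : E ⊕ N × Bool) = .inr f := rfl

theorem g1_nd_u (e : E) (b c : Bool) : F.nd (F.u e b, c) = .inl e := F.ndv_u e b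

theorem g1_nd_w (f : N) (i : Fin 3) (b c : Bool) : F.nd (F.w f i b, c) = .inr f := F.ndv_w f i b

theorem g1_nd_lg (f : N) (i : Fin 3) (b : Bool) : F.nd (F.lg f i b) = .inr f := F.ndv_w f i b

theorem g1_lg_notIn (f : N) (i : Fin 3) (b : Bool) : F.lg f i b ∉ F.In := fun h => by
  simpa using (F.mem_In_w f i b _).1 h

theorem g1_inl {h : V × Bool} {e : E} (hh : F.nd h = .inl e) : ∃ b c, h = (F.u e b, c) := by
  obtain ⟨v, c⟩ := h
  rcases F.cases v with ⟨e', b, rfl⟩ | ⟨f, i, b, rfl⟩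
  · obtain rfl : e' = e := Sum.inl.inj ((F.ndv_u e' b).symm.trans hh)
    exact ⟨b, c, rfl⟩
  · exact absurd ((F.ndv_w f i b).symm.trans hh) (by simp)

theorem g1_inr {h : V × Bool} {f : N} (hI : h ∉ F.In) (hh : F.nd h = .inr f) :
    ∃ i b, h = F.lg f i b := by
  obtain ⟨v, c⟩ := h
  rcases F.cases v with ⟨e', b, rfl⟩ | ⟨f', i, b, rfl⟩
  · exact absurd ((F.ndv_u e' b).symm.trans hh) (by simp)
  · obtain rfl : f' = f := Sum.inr.inj ((F.ndv_w f' i b).symm.trans hh)
    exact ⟨i, b, Prod.ext rfl (Bool.eq_not.2 fun e => hI ((F.mem_In_w ..).2 e))⟩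

variable {K : Type} [Field K] [CharP K 2]

theorem g1_sum (φ : V × Bool → K) : ∑ h, φ h =
    ∑ e, (φ (F.u e false, false) + φ (F.u e false, true) + φ (F.u e true, false) +
      φ (F.u e true, true)) + ∑ f, ∑ i : Fin 3, (φ (F.w f i false, false) +
        φ (F.w f i false, true) + φ (F.w f i true, false) + φ (F.w f i true, true)) := by
  rw [Fintype.sum_prod_type, ← F.vx.sum_comp, Fintype.sum_sum_type]
  simp only [Fintype.sum_prod_type, Fintype.sum_bool, u, w]
  congr 1
  · exact sum_congr rfl fun e _ => by ring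
  · exact sum_congr rfl fun f _ => sum_congr rfl fun i _ => by ring

theorem g1_hex (φ : V × Bool → K) (h : ∀ h ∈ F.In, φ (t.o h) = φ h) (f : N) :
    ∑ i : Fin 3, (φ (F.w f i false, false) + φ (F.w f i false, true) + φ (F.w f i true, false) +
      φ (F.w f i true, true)) = φ (F.lg f 0 false) + φ (F.lg f 0 true) + φ (F.lg f 1 false) +
        φ (F.lg f 1 true) + φ (F.lg f 2 false) + φ (F.lg f 2 true) := by
  have two : (2 : K) = 0 := CharTwo.two_eq_zero
  have h1 : ∀ i, φ (F.w f (i + 1) false, F.c f) = φ (F.w f i true, F.c f) := fun i => by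
    rw [← h (F.w f i true, F.c f) ((F.mem_In_w ..).2 rfl)]
    exact congrArg φ ((F.hx f i).symm)
  have h2 : ∀ i b, φ (F.w f i b, false) + φ (F.w f i b, true) =
      φ (F.w f i b, F.c f) + φ (F.lg f i b) := fun i b => by
    unfold lg
    cases F.c f
    · rfl
    · exact add_comm _ _
  have a0 : φ (F.w f 1 false, F.c f) = _ := h1 0
  have a1 : φ (F.w f 2 false, F.c f) = _ := h1 1
  have a2 : φ (F.w f 0 false, F.c f) = _ := h1 2
  rw [Fin.sum_univ_three]
  linear_combination h2 0 false + h2 0 true + h2 1 false + h2 1 true + h2 2 false + h2 2 true +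
    a0 + a1 + a2 + (φ (F.w f 0 true, F.c f) + φ (F.w f 1 true, F.c f) +
      φ (F.w f 2 true, F.c f)) * two

theorem g1_pi1 (g : V × Bool → K) (e : E) :
    (F.pi K g).1 (.inl e) = g (F.u e false, false) + g (F.u e false, true) := rfl
theorem g1_pi2 (g : V × Bool → K) (e : E) :
    (F.pi K g).2 (.inl e) = g (F.u e false, false) + g (F.u e true, false) := rfl
theorem g1_pi3 (g : V × Bool → K) (f : N) :
    (F.pi K g).1 (.inr (f, false)) = g (F.lg f 0 false) + g (F.lg f 2 true) := rfl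
theorem g1_pi4 (g : V × Bool → K) (f : N) :
    (F.pi K g).1 (.inr (f, true)) = g (F.lg f 1 true) + g (F.lg f 2 false) := rfl
theorem g1_pi5 (g : V × Bool → K) (f : N) :
    (F.pi K g).2 (.inr (f, false)) = g (F.lg f 0 false) + g (F.lg f 0 true) := rfl
theorem g1_pi6 (g : V × Bool → K) (f : N) :
    (F.pi K g).2 (.inr (f, true)) = g (F.lg f 1 false) + g (F.lg f 1 true) := rfl

theorem g1_ord {a b c d a' b' c' d' : K} (h : a + b + c + d = 0) (h' : a' + b' + c' + d' = 0) :
    a * a' + b * b' + c * c' + d * d' = (a + b) * (a' + c') + (a' + b') * (a + c) := by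
  have two : (2 : K) = 0 := CharTwo.two_eq_zero
  linear_combination d' * h + (a + b + c) * h' - (a * a' + a * b' + a * c' + a * d' + a' * b +
    a' * c + b * c' + b * d' + b' * c + c * d') * two

theorem g1_six {a b c d e f a' b' c' d' e' f' : K} (h : a + b + c + d + e + f = 0)
    (h' : a' + b' + c' + d' + e' + f' = 0) :
    a * a' + b * b' + c * c' + d * d' + e * e' + f * f' =
      (d + e) * (c' + d') + (d' + e') * (c + d) + ((a + f) * (a' + b') + (a' + f') * (a + b)) := by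
  have two : (2 : K) = 0 := CharTwo.two_eq_zero
  linear_combination (f' + a' + b') * h + (a + b + c + d + e + a + b) * h' -
    (2 * a * a' + 2 * a * b' + a * c' + a * d' + a * e' + 2 * a * f' + 2 * a' * b + a' * c +
      a' * d + a' * e + a' * f + b * b' + b * c' + b * d' + b * e' + 2 * b * f' + b' * c +
      b' * d + b' * e + b' * f + c * d' + c * e' + c * f' + c' * d + c' * e + d * d' +
      d * e' + d * f' + d' * e + e * f') * two

/-- the values of the section on the legs -/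
def g1_tab (x : V1 K (E ⊕ N × Bool)) (f : N) (i : Fin 3) (b : Bool) : K :=
  ![cond b (x.2 (.inr (f, false))) 0,
    cond b (x.1 (.inr (f, false)) + x.2 (.inr (f, false)) + x.1 (.inr (f, true)) +
      x.2 (.inr (f, true))) (x.1 (.inr (f, false)) + x.2 (.inr (f, false)) + x.1 (.inr (f, true)) +
      x.2 (.inr (f, true)) + x.2 (.inr (f, true))),
    cond b (x.1 (.inr (f, false))) (x.1 (.inr (f, false)) + x.2 (.inr (f, false)) +
      x.1 (.inr (f, true)) + x.2 (.inr (f, true)) + x.1 (.inr (f, true)))] i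

/-- the section -/
def g1_sec (x : V1 K (E ⊕ N × Bool)) (h : V × Bool) : K :=
  Sum.elim (fun p : E × Bool => (if h.2 then x.1 (.inl p.1) else 0) +
      if p.2 then x.2 (.inl p.1) else 0)
    (fun p : N × Fin 3 × Bool => if h.2 = F.c p.1 then 0 else g1_tab x p.1 p.2.1 p.2.2)
    (F.vx.symm h.1)

/-- sum over the half-edges of an ordinary node (reindex by `vx`) -/
theorem sum_u (e : E) (g : V × Bool → K) : chi K {h | F.nd h = .inl e} ⬝ᵥ g =
    g (F.u e false, false) + g (F.u e false, true) + g (F.u e true, false) +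
      g (F.u e true, true) := by
  rw [dotProduct, F.g1_sum]
  simp only [chi, mem_filter, mem_univ, true_and, g1_nd_u, g1_nd_w, Sum.inl.injEq, reduceCtorEq,
    if_false, zero_mul, add_zero, sum_const_zero]
  rw [Finset.sum_eq_single e (fun e' _ he => by simp [he]) (by simp only [mem_univ, not_true_eq_false, ↓ reduceIte, one_mul, IsEmpty.forall_iff])]
  simp

/-- sum over the half-edges of a hexagon node -/
theorem sum_w (f : N) (g : V × Bool → K) : chi K {h | F.nd h = .inr f} ⬝ᵥ g =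
    ∑ i : Fin 3, (g (F.w f i false, false) + g (F.w f i false, true) + g (F.w f i true, false) +
      g (F.w f i true, true)) := by
  rw [dotProduct, F.g1_sum]
  simp only [chi, mem_filter, mem_univ, true_and, g1_nd_u, g1_nd_w, Sum.inr.injEq, reduceCtorEq,
    if_false, zero_mul, add_zero, sum_const_zero, zero_add]
  rw [Finset.sum_eq_single f (fun e' _ he => by simp [he]) (by simp only [mem_univ, not_true_eq_false, ↓ reduceIte, one_mul, IsEmpty.forall_iff])]
  simp

/-- evenness in coordinates (the inner values cancel in pairs by `hx`) -/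
theorem mem_EI (g : V × Bool → K) : g ∈ F.EI K ↔ (∀ h ∈ F.In, g (t.o h) = g h) ∧
    (∀ e, g (F.u e false, false) + g (F.u e false, true) + g (F.u e true, false) +
      g (F.u e true, true) = 0) ∧
    ∀ f, g (F.lg f 0 false) + g (F.lg f 0 true) + g (F.lg f 1 false) + g (F.lg f 1 true) +
      g (F.lg f 2 false) + g (F.lg f 2 true) = 0 := by
  refine and_congr_right fun h1 => ?_
  rw [Sum.forall]
  simp only [F.sum_u, F.sum_w, F.g1_hex g h1]

theorem cut_EI (S : Finset (E ⊕ N)) (g : V × Bool → K) (hg : g ∈ F.EI K) :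
    cut {h | F.nd h ∈ S} g ∈ F.EI K := by
  obtain ⟨h1, h2, h3⟩ := (F.mem_EI g).1 hg
  refine (F.mem_EI _).2 ⟨fun h hh => ?_, fun e => ?_, fun f => ?_⟩
  · simp only [cut_apply, mem_filter, mem_univ, true_and, (F.o_In h hh).2, h1 h hh]
  · simp only [cut_apply, mem_filter, mem_univ, true_and, g1_nd_u]
    split_ifs
    · exact h2 e
    · simp
  · simp only [cut_apply, mem_filter, mem_univ, true_and, g1_nd_lg]
    split_ifs
    · exact h3 f
    · simp

theorem pi_cut (S : Finset (E ⊕ N)) (g : V × Bool → K) :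
    F.pi K (cut {h | F.nd h ∈ S} g) = pr {p | site p ∈ S} (F.pi K g) := by
  refine Prod.ext (funext ?_) (funext ?_) <;> rintro (e | ⟨f, _ | _⟩) <;>
    simp only [s1_pr_fst, s1_pr_snd, g1_pi1, g1_pi2, g1_pi3, g1_pi4, g1_pi5, g1_pi6, cut_apply,
      mem_filter, mem_univ, true_and, g1_nd_u, g1_nd_lg, g1_s1, g1_s2] <;>
    split_ifs <;> simp

/-- `pi` only reads non-inner half-edges -/
theorem pi_congr (g g' : V × Bool → K) (h : ∀ a ∉ F.In, g a = g' a) : F.pi K g = F.pi K g' := by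
  refine Prod.ext (funext ?_) (funext ?_) <;> rintro (e | ⟨f, _ | _⟩) <;>
    simp only [g1_pi1, g1_pi2, g1_pi3, g1_pi4, g1_pi5, g1_pi6, h _ (F.not_In_u _ _ _),
      h _ (F.g1_lg_notIn _ _ _)]

/-- The dot product is the symplectic form. Plan: write both sides as sums over the nodes
(`sum_u`, `sum_w` applied to `g * g'`; `Fintype.sum_sum_type`, `Finset.sum_fiberwise`), eliminate
the last value by `mem_EI`, inner products cancel in pairs; `linear_combination .. * two`. -/
theorem dot_eq (g g' : V × Bool → K) (hg : g ∈ F.EI K) (hg' : g' ∈ F.EI K) :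
    g ⬝ᵥ g' = om (F.pi K g) (F.pi K g') := by
  obtain ⟨h1, h2, h3⟩ := (F.mem_EI g).1 hg
  obtain ⟨k1, k2, k3⟩ := (F.mem_EI g').1 hg'
  rw [dotProduct, F.g1_sum, om_apply, bb_apply, bb_apply, ← sum_add_distrib,
    Fintype.sum_sum_type, Fintype.sum_prod_type]
  congr 1
  · exact sum_congr rfl fun e _ => g1_ord (h2 e) (k2 e)
  · refine sum_congr rfl fun f _ => ?_
    rw [F.g1_hex (fun h => g h * g' h) (fun h hh => by rw [h1 h hh, k1 h hh]), Fintype.sum_bool]
    exact g1_six (h3 f) (k3 f)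

/-- A section. Ordinary node with coordinates `(a, b)`: values `0, a, b, a + b`. Hexagon with
`p = x.1 (f,false)`, `q = x.2 (f,false)`, `p' = x.1 (f,true)`, `q' = x.2 (f,true)`,
`s = p + q + p' + q'`: legs `0, q, s + q', s, s + p', p`; inner values `0`. -/
theorem sect (x : V1 K (E ⊕ N × Bool)) :
    ∃ g ∈ F.EI K, F.pi K g = x ∧ ∀ h ∈ F.In, g h = 0 := by
  have two : (2 : K) = 0 := CharTwo.two_eq_zero
  have hu : ∀ e b c, F.g1_sec x (F.u e b, c) =
      (if c then x.1 (.inl e) else 0) + if b then x.2 (.inl e) else 0 := fun e b c => by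
    simp [g1_sec, u]
  have hl : ∀ f i b, F.g1_sec x (F.lg f i b) = g1_tab x f i b := fun f i b => by
    simp [g1_sec, lg, w]
  have h0 : ∀ h ∈ F.In, F.g1_sec x h = 0 := by
    rintro ⟨v, c⟩ hh
    rcases F.cases v with ⟨e, b, rfl⟩ | ⟨f, i, b, rfl⟩
    · exact absurd hh (F.not_In_u e b c)
    · obtain rfl := (F.mem_In_w f i b c).1 hh
      simp [g1_sec, w]
  refine ⟨F.g1_sec x, (F.mem_EI _).2 ⟨fun h hh => by rw [h0 h hh, h0 _ (F.o_In h hh).1],
    fun e => ?_, fun f => ?_⟩, ?_, h0⟩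
  · simp only [hu, if_true, Bool.false_eq_true, if_false]
    linear_combination (x.1 (.inl e) + x.2 (.inl e)) * two
  · simp only [hl, g1_tab, Matrix.cons_val, cond_true, cond_false]
    linear_combination (2 * (x.1 (.inr (f, false)) + x.2 (.inr (f, false)) +
      x.1 (.inr (f, true)) + x.2 (.inr (f, true)))) * two
  · refine Prod.ext (funext ?_) (funext ?_) <;> rintro (e | ⟨f, _ | _⟩) <;>
      simp only [g1_pi1, g1_pi2, g1_pi3, g1_pi4, g1_pi5, g1_pi6, hu, hl, g1_tab, Matrix.cons_val,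
        cond_true, cond_false, if_true, Bool.false_eq_true, if_false, zero_add, add_zero]
    · linear_combination (x.1 (.inr (f, false)) + x.2 (.inr (f, false)) +
        x.1 (.inr (f, true)) + x.2 (.inr (f, true))) * two
    · linear_combination (x.1 (.inr (f, false)) + x.2 (.inr (f, false)) +
        x.1 (.inr (f, true)) + x.2 (.inr (f, true))) * two

/-- an even function with zero coordinates at a node is constant on its non-inner half-edges,
and conversely -/
theorem ker_iff (g : V × Bool → K) (hg : g ∈ F.EI K) (v : E ⊕ N) :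
    (∀ p, site p = v → (F.pi K g).1 p = 0 ∧ (F.pi K g).2 p = 0) ↔
      ∀ h ∉ F.In, ∀ h' ∉ F.In, F.nd h = v → F.nd h' = v → g h' = g h := by
  have two : (2 : K) = 0 := CharTwo.two_eq_zero
  obtain ⟨-, h2, h3⟩ := (F.mem_EI g).1 hg
  constructor
  · intro H
    suffices key : ∃ a, ∀ h ∉ F.In, F.nd h = v → g h = a by
      obtain ⟨a, ha⟩ := key
      exact fun h hh h' hh' e e' => (ha h' hh' e').trans (ha h hh e).symm
    rcases v with e | f
    · obtain ⟨a1, a2⟩ := H (.inl e) rfl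
      rw [g1_pi1, CharTwo.add_eq_zero] at a1
      rw [g1_pi2, CharTwo.add_eq_zero] at a2
      refine ⟨g (F.u e false, false), fun h _ hh => ?_⟩
      obtain ⟨b, c, rfl⟩ := F.g1_inl hh
      cases b <;> cases c
      · rfl
      · exact a1.symm
      · exact a2.symm
      · linear_combination h2 e + a1 + a2 - 2 * g (F.u e false, false) * two
    · obtain ⟨a1, a2⟩ := H (.inr (f, false)) rfl
      obtain ⟨a3, a4⟩ := H (.inr (f, true)) rfl
      rw [g1_pi3, CharTwo.add_eq_zero] at a1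
      rw [g1_pi5, CharTwo.add_eq_zero] at a2
      rw [g1_pi4, CharTwo.add_eq_zero] at a3
      rw [g1_pi6, CharTwo.add_eq_zero] at a4
      have a5 : g (F.lg f 1 true) = g (F.lg f 0 false) := by
        linear_combination h3 f + a1 + a2 + a3 - a4 -
          (2 * g (F.lg f 0 false) + g (F.lg f 1 true)) * two
      refine ⟨g (F.lg f 0 false), fun h hh' hh => ?_⟩
      obtain ⟨i, b, rfl⟩ := F.g1_inr hh' hh
      fin_cases i <;> cases b
      · rfl
      · exact a2.symm
      · exact a4.trans a5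
      · exact a5
      · exact a3.symm.trans a5
      · exact a1.symm
  · intro H
    rintro (e | ⟨f, _ | _⟩) rfl
    · rw [g1_pi1, g1_pi2, CharTwo.add_eq_zero, CharTwo.add_eq_zero]
      exact ⟨H _ (F.not_In_u _ _ _) _ (F.not_In_u _ _ _) (F.g1_nd_u ..) (F.g1_nd_u ..),
        H _ (F.not_In_u _ _ _) _ (F.not_In_u _ _ _) (F.g1_nd_u ..) (F.g1_nd_u ..)⟩
    · rw [g1_pi3, g1_pi5, CharTwo.add_eq_zero, CharTwo.add_eq_zero]
      exact ⟨H _ (F.g1_lg_notIn _ _ _) _ (F.g1_lg_notIn _ _ _) (F.g1_nd_lg ..) (F.g1_nd_lg ..),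
        H _ (F.g1_lg_notIn _ _ _) _ (F.g1_lg_notIn _ _ _) (F.g1_nd_lg ..) (F.g1_nd_lg ..)⟩
    · rw [g1_pi4, g1_pi6, CharTwo.add_eq_zero, CharTwo.add_eq_zero]
      exact ⟨H _ (F.g1_lg_notIn _ _ _) _ (F.g1_lg_notIn _ _ _) (F.g1_nd_lg ..) (F.g1_nd_lg ..),
        H _ (F.g1_lg_notIn _ _ _) _ (F.g1_lg_notIn _ _ _) (F.g1_nd_lg ..) (F.g1_nd_lg ..)⟩

/-- every node has a non-inner half-edge -/
theorem exists_leg (v : E ⊕ N) : ∃ h ∉ F.In, F.nd h = v := by
  rcases v with e | f
  · exact ⟨(F.u e false, false), F.not_In_u _ _ _, F.g1_nd_u ..⟩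
  · exact ⟨F.lg f 0 false, F.g1_lg_notIn _ _ _, F.g1_nd_lg ..⟩

/-- functions of the node are even with zero coordinates -/
theorem const_EI (c : E ⊕ N → K) :
    (fun h => c (F.nd h)) ∈ F.EI K ∧ F.pi K (fun h => c (F.nd h)) = 0 := by
  have two : (2 : K) = 0 := CharTwo.two_eq_zero
  refine ⟨(F.mem_EI _).2 ⟨fun h hh => by rw [(F.o_In h hh).2], fun e => ?_, fun f => ?_⟩, ?_⟩
  · simp only [g1_nd_u]
    linear_combination 2 * c (.inl e) * two
  · simp only [g1_nd_lg]
    linear_combination 3 * c (.inr f) * two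
  · refine Prod.ext (funext ?_) (funext ?_) <;> rintro (e | ⟨f, _ | _⟩) <;>
      simp only [g1_pi1, g1_pi2, g1_pi3, g1_pi4, g1_pi5, g1_pi6, g1_nd_u, g1_nd_lg,
        CharTwo.add_self_eq_zero] <;> rfl

/-- use `mem_EI` and `θ ∘ g` -/
theorem L_ac (θ : RingAut K) : ∀ x ∈ F.L K, ac θ x ∈ F.L K := by
  rintro _ ⟨g, ⟨hs, hg⟩, rfl⟩
  obtain ⟨h1, h2, h3⟩ := (F.mem_EI g).1 hg
  refine ⟨fun h => θ (g h), ⟨fun h => congrArg θ (hs h), (F.mem_EI _).2
    ⟨fun h hh => congrArg θ (h1 h hh), fun e => ?_, fun f => ?_⟩⟩, ?_⟩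
  · simp only [← map_add, h2 e, map_zero]
  · simp only [← map_add, h3 f, map_zero]
  · refine Prod.ext (funext ?_) (funext ?_) <;> rintro (e | ⟨f, _ | _⟩) <;>
      simp only [ac, g1_pi1, g1_pi2, g1_pi3, g1_pi4, g1_pi5, g1_pi6, map_add]

/-- `dot_eq` and `dot_pairs` with `A = univ` -/
theorem L_iso : ∀ x ∈ F.L K, ∀ y ∈ F.L K, om x y = 0 := by
  rintro _ ⟨g, ⟨hs, hg⟩, rfl⟩ _ ⟨g', ⟨hs', hg'⟩, rfl⟩
  rw [← F.dot_eq g g' hg hg', ← dot_pairs t.o t.oo t.o_ne univ (fun _ _ => mem_univ _) g g'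
    (fun h _ => hs h) fun h _ => hs' h]
  congr 1
  ext h
  simp only [cut_apply, mem_univ, ↓ reduceIte]

end Fam
end Pool.Agent.MP_8c1b0d_co.RR

set_option autoImplicit false
set_option linter.unusedSectionVars false
open Finset Module

namespace Pool.Agent.MP_8c1b0d_co.RR

/-- exchange of `m` and the colour `k` on the set `sw v = some k` -/
theorem Sy.exists_swp {V : Type} (t : Sy V) (sw : V → Option Bool) (s1 : ∀ v, sw (t.m v) = sw v)
    (s2 : ∀ v k, sw v = some k → sw (t.o (v, k)).1 = some k ∧ (t.o (v, k)).2 = k) :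
    ∃ t' : Sy V, t.Swp t' sw := by
  classical
  have e : ∀ v k, sw v = some k → t.o (v, k) = ((t.o (v, k)).1, k) := fun v k h =>
    Prod.ext rfl (s2 v k h).2
  have n : ∀ h : V × Bool, sw h.1 ≠ some h.2 → sw (t.o h).1 ≠ some (t.o h).2 := fun h a b => by
    have := s2 _ _ b
    rw [show ((t.o h).1, (t.o h).2) = t.o h from rfl, t.oo] at this
    exact a (this.2 ▸ this.1)
  refine ⟨⟨fun v => (sw v).elim (t.m v) fun k => (t.o (v, k)).1,
    fun h => if sw h.1 = some h.2 then (t.m h.1, h.2) else t.o h, fun v => ?_, fun v => ?_,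
    fun h => ?_, fun h => ?_⟩, fun v h => by simp only [h, Option.elim_none],
    fun v k h => ⟨by simp only [h, Option.elim_some], if_pos h⟩, fun v k h => if_neg h⟩
  · rcases h : sw v with _ | k
    · simp only [Option.elim_none, s1, h, t.mm]
    · simp only [Option.elim_some, (s2 v k h).1]
      rw [← e v k h, t.oo]
  · rcases h : sw v with _ | k
    · exact t.m_ne v
    · exact fun a => t.o_ne (v, k) (Prod.ext a (s2 v k h).2)
  · by_cases a : sw h.1 = some h.2
    · simp only [a, if_true, s1, t.mm]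
    · simp only [a, if_false, n h a, t.oo]
  · by_cases a : sw h.1 = some h.2
    · simp only [a, if_true]
      exact fun b => t.m_ne _ (congrArg Prod.fst b)
    · simp only [a, if_false]
      exact t.o_ne h

/-- renumbering of the vertices of the swapped hexagons -/
def g3_perm {N : Type} (I : N → Bool) : N × Fin 3 × Bool ≃ N × Fin 3 × Bool where
  toFun p := (p.1, if I p.1 then (if p.2.2 then (p.2.1 + 1, false) else (p.2.1, true)) else p.2)
  invFun p := (p.1, if I p.1 then (if p.2.2 then (p.2.1, false) else (p.2.1 - 1, true)) else p.2)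
  left_inv := by
    rintro ⟨f, i, _ | _⟩ <;> cases h : I f <;> simp [h]
  right_inv := by
    rintro ⟨f, i, _ | _⟩ <;> cases h : I f <;> simp [h]

theorem g3_hex {X : Type} (a l : Fin 3 → Bool → X) (sy : ∀ i, a (i + 1) false = a i true)
    (k : Fin 3) (one : Bool)
    (t1 : ∀ i, (i = k ↔ one = true) → a i true = a i false ∧ l i true = l i false)
    (t0 : ∀ i, ¬ (i = k ↔ one = true) → ∀ b, a i b = l i b) :
    (one = false → ∀ i, l i true = l i false) ∧
    (one = true → l k true = l k false ∧ l (k + 1) true = l (k + 2) false ∧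
      l (k + 1) false = l (k + 2) true) ∧ ∀ i b, ∃ i' b', a i b = l i' b' := by
  obtain ⟨n1, n2, tri, n3, n4⟩ := (by decide : ∀ k : Fin 3, k + 1 ≠ k ∧ k + 2 ≠ k ∧
    (∀ i, i = k ∨ i = k + 1 ∨ i = k + 2) ∧ k + 1 + 1 = k + 2 ∧ k + 2 + 1 = k) k
  have y0 := sy k
  have y1 := sy (k + 1)
  have y2 := sy (k + 2)
  rw [n3] at y1
  rw [n4] at y2
  cases one
  · have a0 := t0 k (by simp)
    obtain ⟨a1, b1⟩ := t1 (k + 1) (by simp [n1])
    obtain ⟨a2, b2⟩ := t1 (k + 2) (by simp [n2])
    have e : a k true = a k false := by rw [← y0, ← a1, ← y1, ← a2, ← y2]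
    refine ⟨fun _ i => ?_, fun h => by simp at h, fun i b => ⟨k, false, ?_⟩⟩
    · rcases tri i with rfl | rfl | rfl
      · rw [← a0, ← a0, e]
      · exact b1
      · exact b2
    · rw [← a0]
      rcases tri i with rfl | rfl | rfl <;> cases b
      · rfl
      · exact e
      · rw [y0, e]
      · rw [a1, y0, e]
      · rw [← a2, y2]
      · rw [y2]
  · obtain ⟨a0, b0⟩ := t1 k (by simp)
    have a1 := t0 (k + 1) (by simp [n1])
    have a2 := t0 (k + 2) (by simp [n2])
    refine ⟨fun h => by simp at h, fun _ => ⟨b0, by rw [← a1, ← a2, y1], ?_⟩, fun i b => ?_⟩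
    · rw [← a1, ← a2, y0, a0, y2]
    · rcases tri i with rfl | rfl | rfl
      · refine ⟨i + 1, false, ?_⟩
        rw [← a1, y0]
        cases b
        exacts [a0.symm, rfl]
      · exact ⟨_, _, a1 b⟩
      · exact ⟨_, _, a2 b⟩

namespace Fam
variable {V E N : Type} [Fintype V] [DecidableEq V] [Fintype E] [DecidableEq E] [Fintype N]
  [DecidableEq N] {t : Sy V} (F : Fam t E N)

/-- Kempe swap along the hexagons `f` with `I f = true`. Plan: let `sw v : Option Bool` be
`some (c f)` on a swapped hexagon `f`, else `none`; `m' v = col (c f) v` and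
`col' (c f) v = m v` on swapped hexagons, nothing else changes. A swapped hexagon is closed
under `m` and `col (c f)` (`ndv_m`, `o_In`); the colour `!c f` edge at `v` keeps its colour at
both ends because its other half is not inner (`o_In`, `o_o`). The new family has
`w' f i false = w f i true`, `w' f i true = w f (i+1) false` on swapped hexagons. -/
theorem swap (I : N → Bool) : ∃ (t' : Sy V) (F' : Fam t' E N),
    t.Swp t' (F.sw I) ∧ F'.c = F.c ∧ (∀ v, F'.ndv v = F.ndv v) ∧
    (∀ e b, F'.u e b = F.u e b) ∧ (∀ h ∉ F.In, t'.o h = t.o h) ∧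
    (∀ f i b, I f = false → F'.w f i b = F.w f i b) ∧
    ∀ f i, I f = true → F'.w f i false = F.w f i true ∧ F'.w f i true = F.w f (i + 1) false := by
  have key : ∀ v k, F.sw I v = some k → (v, k) ∈ F.In := fun v k h => by
    unfold sw at h
    rcases e : F.ndv v with a | f
    · simp [e] at h
    · simp only [e, Sum.elim_inr, Option.ite_none_right_eq_some, Option.some.injEq] at h
      exact mem_filter.2 ⟨mem_univ _, f, e, h.2.symm⟩
  obtain ⟨t', h1⟩ := t.exists_swp (F.sw I) (fun v => by rw [sw, sw, F.ndv_m]) fun v k h => by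
    obtain ⟨e1, e⟩ := F.o_In _ (key v k h)
    obtain ⟨f, f1, f2⟩ := (mem_filter.1 e1).2
    obtain ⟨f', f3, f4⟩ := (mem_filter.1 (key v k h)).2
    obtain rfl : f = f' := Sum.inr.inj (f1.symm.trans (e.trans f3))
    refine ⟨?_, f2.trans f4.symm⟩
    rw [sw, show F.ndv (t.o (v, k)).1 = F.ndv v from e]
    exact h
  have su : ∀ e b, t'.m (F.u e b) = F.u e (!b) := fun e b => by
    rw [h1.m0 _ (by rw [sw, F.ndv_u]; rfl)]
    exact F.m1 e b
  have s0 : ∀ f i b, I f = false → t'.m (F.w f i b) = t.m (F.w f i b) ∧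
      t'.o (F.w f i b, F.c f) = t.o (F.w f i b, F.c f) := fun f i b h =>
    ⟨h1.m0 _ (by rw [sw, F.ndv_w]; simp [h]), h1.o0 _ _ (by rw [sw, F.ndv_w]; simp [h])⟩
  have s1 : ∀ f i b, I f = true → t'.m (F.w f i b) = (t.o (F.w f i b, F.c f)).1 ∧
      t'.o (F.w f i b, F.c f) = (t.m (F.w f i b), F.c f) := fun f i b h =>
    h1.m1 _ _ (by rw [sw, F.ndv_w]; simp [h])
  have w0 : ∀ f i b, I f = false →
      ((Equiv.sumCongr (Equiv.refl _) (g3_perm I)).trans F.vx) (.inr (f, i, b)) = F.w f i b :=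
    fun f i b h => by simp [g3_perm, h, w]
  have w1 : ∀ f i, I f = true →
      ((Equiv.sumCongr (Equiv.refl _) (g3_perm I)).trans F.vx) (.inr (f, i, false)) =
        F.w f i true ∧
      ((Equiv.sumCongr (Equiv.refl _) (g3_perm I)).trans F.vx) (.inr (f, i, true)) =
        F.w f (i + 1) false := fun f i h => by simp [g3_perm, h, w]
  refine ⟨t', ⟨(Equiv.sumCongr (Equiv.refl _) (g3_perm I)).trans F.vx, F.c, su, fun f i b => ?_,
    fun f i => ?_⟩, h1, rfl, fun v => ?_, fun _ _ => rfl, fun h hh => ?_, w0, w1⟩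
  · cases h : I f
    · rw [w0 f i _ h, w0 f i _ h, (s0 f i b h).1]
      exact F.m2 f i b
    · cases b
      · rw [Bool.not_false, (w1 f i h).1, (w1 f i h).2, (s1 f i _ h).1]
        exact congrArg Prod.fst (F.hx f i)
      · rw [Bool.not_true, (w1 f i h).1, (w1 f i h).2, (s1 f _ _ h).1]
        exact congrArg Prod.fst (F.hx' f i)
  · cases h : I f
    · rw [w0 f _ _ h, w0 f _ _ h, (s0 f i _ h).2]
      exact F.hx f i
    · rw [(w1 f i h).2, (w1 f _ h).1, (s1 f _ _ h).2]
      exact Prod.ext (F.m2 f (i + 1) false) rfl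
  · simp only [ndv, Equiv.symm_trans_apply]
    rcases F.vx.symm v with a | a <;> rfl
  · exact h1.o0 _ _ fun e => hh (key _ _ e)

/-- One hexagon, one colour: `g` is symmetric on the inner edges; at the `m`-edge `i` it is of
type 1 if `ty i`, else of type 0. If exactly the edge `k` has type 0 then all three pairs of
legs agree; if exactly the edge `k` has type 1 then the legs are paired in parallel. In both
cases every inner value equals a leg value. Plan: name the 12 values, `fin_cases k`. -/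
theorem hex_local {X : Type} (g : V × Bool → X) (f : N) (sy : ∀ h ∈ F.In, g (t.o h) = g h)
    (k : Fin 3) (one : Bool)
    (t1 : ∀ i, (i = k ↔ one = true) → ∀ c, g (F.w f i true, c) = g (F.w f i false, c))
    (t0 : ∀ i, ¬ (i = k ↔ one = true) → ∀ b, g (F.w f i b, true) = g (F.w f i b, false)) :
    (one = false → ∀ i, g (F.lg f i true) = g (F.lg f i false)) ∧
    (one = true → g (F.lg f k true) = g (F.lg f k false) ∧
      g (F.lg f (k + 1) true) = g (F.lg f (k + 2) false) ∧
      g (F.lg f (k + 1) false) = g (F.lg f (k + 2) true)) ∧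
    ∀ i b, ∃ i' b', g (F.w f i b, F.c f) = g (F.lg f i' b') := by
  refine g3_hex (fun i b => g (F.w f i b, F.c f)) (fun i b => g (F.lg f i b)) (fun i => ?_) k one
    (fun i h => ⟨t1 i h _, t1 i h _⟩) fun i h b => ?_
  · have := sy _ ((F.mem_In_w f i true _).2 rfl)
    rwa [show t.o (F.w f i true, F.c f) = (F.w f (i + 1) false, F.c f) from F.hx f i] at this
  · have := t0 i h b
    simp only [lg]
    cases F.c f
    exacts [this.symm, this]

/-- LIFT. Plan: from `Transv` get `r sw i j`; `swap i`; special edge of `F'` at `f`: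
`k f = 0, 1` for `i f = false`, `j f = false, true`, and `k f = 1, 2` for `i f = true`. Colour
`r' v = r e` on an ordinary edge, `!sw f` on the special edge, `sw f` on the two other edges.
`Tri.good_of_conn` for `t'`. Given `κ` and `g`, let `g₀ = ι ∘ g` off `F.In`, `0` on `F.In`
(`ι = ZMod.castHom (dvd_refl 2) K`, injective). `hex_local` for `F'` with `one = (sw f != κ)`
gives `g₀ ∈ symm o ⊓ EI` (`mem_EI`) and the conditions `Row`, `Colm` (legs `g1..g6` =
`lg 0 false, lg 0 true, ..`: `Row false` = 12 34 56, `Row true` = 61 45 23, `Colm false` =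
12 36 45, `Colm true` = 34 16 25). So `pi g₀ = 0`; by `ker_iff` and `exists_leg` there is
`φ : E ⊕ N → K` with `g₀ h = φ (nd h)` off `In`; `φ ∘ ndv` is invariant under `x, y, m`
(`o_In`, `ndv_m`), constant by `Cn`; inner values by the last part of `hex_local`. -/
theorem lift {K : Type} [Field K] [CharP K 2] (cn : t.Cn) (h : Transv (F.L K)) :
    ∃ (t' : Sy V) (I : N → Bool) (r : V → Bool), t.Swp t' (F.sw I) ∧ t'.Sol r := by
  obtain ⟨r, sw, i, j, hT⟩ := h
  obtain ⟨t', F', h1, hc, hn, hu, ho, w0, w1⟩ := F.swap i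
  have hIn : F'.In = F.In := by
    ext a
    simp only [In, hc, hn]
  obtain ⟨k, hk⟩ : ∃ k : N → Fin 3, ∀ f,
      k f = if i f then (if j f then 2 else 1) else (if j f then 1 else 0) := ⟨_, fun _ => rfl⟩
  obtain ⟨r', ru, rw'⟩ : ∃ r' : V → Bool, (∀ e b, r' (F'.u e b) = r e) ∧
      ∀ f a b, r' (F'.w f a b) = if a = k f then !sw f else sw f :=
    ⟨fun v => (F'.vx.symm v).elim (fun p => r p.1)
      fun p => if p.2.1 = k p.1 then !sw p.1 else sw p.1,
      fun e b => by simp [u], fun f a b => by simp [w]⟩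
  have mu : ∀ e b, t'.m (F'.u e b) = F'.u e (!b) := F'.m1
  have mw : ∀ f a b, t'.m (F'.w f a b) = F'.w f a (!b) := F'.m2
  refine ⟨t', i, r', h1, fun v => ?_, fun κ g gs g1 g0 => ?_⟩
  · rcases F'.cases v with ⟨e, b, rfl⟩ | ⟨f, a, b, rfl⟩
    · rw [mu, ru, ru]
    · rw [mw, rw', rw']
  have hex := fun f => F'.hex_local g f (fun a _ => gs a) (k f) (sw f != κ)
    (fun a ha c => by
      have := g1 (F'.w f a false) (by
        rw [rw']
        revert ha
        by_cases e : a = k f <;> cases sw f <;> cases κ <;> simp [e]) c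
      rwa [mw] at this)
    (fun a ha b => g0 _ (by
      rw [rw']
      revert ha
      by_cases e : a = k f <;> cases sw f <;> cases κ <;> simp [e]))
  have two : ∀ a : K, a + a = 0 := CharTwo.add_self_eq_zero
  have lgn : ∀ f a b, F.lg f a b ∉ F.In := fun f a b hh => by
    have := (F.mem_In_w f a b _).1 hh
    simp at this
  obtain ⟨g', gi, go⟩ : ∃ g' : V × Bool → K, (∀ a ∈ F.In, g' a = 0) ∧
      ∀ a ∉ F.In, g' a = ZMod.castHom (dvd_refl 2) K (g a) :=
    ⟨fun a => if a ∈ F.In then 0 else ZMod.castHom (dvd_refl 2) K (g a),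
      fun a ha => if_pos ha, fun a ha => if_neg ha⟩
  have oIn : ∀ a ∉ F.In, t.o a ∉ F.In := fun a ha hb => ha (t.oo a ▸ (F.o_In _ hb).1)
  have gs' : ∀ a ∉ F.In, g (t.o a) = g a := fun a ha => by rw [← ho a ha, gs]
  have sy : ∀ a, g' (t.o a) = g' a := fun a => by
    by_cases ha : a ∈ F.In
    · rw [gi _ ha, gi _ (F.o_In _ ha).1]
    · rw [go _ ha, go _ (oIn a ha), gs' a ha]
  have tu : ∀ e, (r e = κ → ∀ c, g' (F.u e true, c) = g' (F.u e false, c)) ∧
      (r e ≠ κ → ∀ b, g' (F.u e b, true) = g' (F.u e b, false)) := fun e => by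
    refine ⟨fun he c => ?_, fun he b => ?_⟩
    · have := g1 (F'.u e false) ((ru e false).trans he) c
      rw [mu, hu, hu] at this
      rw [go _ (F.not_In_u _ _ _), go _ (F.not_In_u _ _ _)]
      exact congrArg _ this
    · have := g0 (F'.u e b) fun e' => he ((ru e b).symm.trans e')
      rw [hu] at this
      rw [go _ (F.not_In_u _ _ _), go _ (F.not_In_u _ _ _), this]
  have tw : ∀ f, (g' (F.lg f 0 false) + g' (F.lg f 0 true) + g' (F.lg f 1 false) +
      g' (F.lg f 1 true) + g' (F.lg f 2 false) + g' (F.lg f 2 true) = 0) ∧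
      if sw f = κ then Row (F.pi K g') f (i f) else Colm (F.pi K g') f (j f) := fun f => by
    obtain ⟨x0, x1, -⟩ := hex f
    have l0 : i f = false → ∀ a b, F'.lg f a b = F.lg f a b := fun e a b => by
      rw [lg, lg, hc, w0 f a b e]
    have l1 : i f = true → ∀ a, F'.lg f a false = F.lg f a true := fun e a => by
      rw [lg, lg, hc, (w1 f a e).1]
    have l2 : i f = true → ∀ a, F'.lg f a true = F.lg f (a + 1) false := fun e a => by
      rw [lg, lg, hc, (w1 f a e).2]
    have tq : ∀ a b, ZMod.castHom (dvd_refl 2) K (g (F.lg f a b)) +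
        ZMod.castHom (dvd_refl 2) K (g (F.lg f a b)) = 0 := fun _ _ => two _
    have e11 : (1 : Fin 3) + 1 = 2 := rfl
    have e21 : (2 : Fin 3) + 1 = 0 := rfl
    have e12 : (1 : Fin 3) + 2 = 0 := rfl
    have e22 : (2 : Fin 3) + 2 = 1 := rfl
    simp only [Row, Colm, pi, LinearMap.coe_mk, AddHom.coe_mk, Sum.elim_inr, go _ (lgn _ _ _),
      Bool.false_eq_true, if_true, if_false]
    by_cases e : sw f = κ
    · have y := x0 (by simp [e])
      have y0 := y 0
      have y1 := y 1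
      have y2 := y 2
      rw [if_pos e]
      cases e' : i f
      · simp only [l0 e'] at y0 y1 y2
        simp only [y0, y1, y2, two, Bool.false_eq_true, if_false, and_self, zero_add]
      · simp only [l1 e', l2 e', zero_add, e11, e21] at y0 y1 y2
        simp only [y0, y1, y2, two, if_true, and_self, and_true]
        linear_combination tq 2 true + tq 0 true + tq 1 true
    · obtain ⟨y0, y1, y2⟩ := x1 (by simp [e])
      rw [if_neg e]
      rw [hk] at y0 y1 y2
      cases e' : i f <;> cases e'' : j f <;>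
        simp only [e', e'', Bool.false_eq_true, if_true, if_false] at y0 y1 y2
      · simp only [l0 e', zero_add] at y0 y1 y2
        simp only [y0, y1, y2, two, Bool.false_eq_true, if_false, and_self, and_true]
        linear_combination tq 2 true + tq 2 false
      · simp only [l0 e', e11, e12] at y0 y1 y2
        simp only [y0, y1, y2, two, if_true, and_self, and_true]
        linear_combination tq 0 false + tq 0 true + tq 1 false
      · simp only [l1 e', l2 e', zero_add, e11, e21, e12] at y0 y1 y2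
        simp only [y0, y1, y2, two, Bool.false_eq_true, if_false, and_self, and_true]
        linear_combination tq 1 false + tq 1 true
      · simp only [l1 e', l2 e', zero_add, e11, e21, e22] at y0 y1 y2
        simp only [y0, y1, y2, two, if_true, and_self, and_true]
        linear_combination tq 2 true + tq 2 false + tq 1 true
  have hE : g' ∈ F.EI K := (F.mem_EI g').2 ⟨fun a _ => sy a, fun e => by
    by_cases he : r e = κ
    · rw [(tu e).1 he, (tu e).1 he]
      linear_combination two (g' (F.u e false, false)) + two (g' (F.u e false, true))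
    · rw [(tu e).2 he, (tu e).2 he, two, zero_add, two], fun f => (tw f).1⟩
  have hz : F.pi K g' = 0 := hT κ _ ⟨g', ⟨sy, hE⟩, rfl⟩ (fun e => by
    split_ifs with he
    · change g' (F.u e false, false) + g' (F.u e true, false) = 0
      rw [(tu e).1 he, two]
    · change g' (F.u e false, false) + g' (F.u e false, true) = 0
      rw [(tu e).2 he, two]) fun f => (tw f).2
  choose lg' l1 l2 using F.exists_leg
  have hφ : ∀ a ∉ F.In, g a = g (lg' (F.nd a)) := fun a ha => by
    have := (F.ker_iff g' hE (F.nd a)).1 (fun p _ => by rw [hz]; exact ⟨rfl, rfl⟩) _ (l1 _) a ha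
      (l2 _) rfl
    rw [go _ ha, go _ (l1 _)] at this
    exact (ZMod.castHom (dvd_refl 2) K).injective this
  have hcol : ∀ a, g (lg' (F.ndv (t.o a).1)) = g (lg' (F.ndv a.1)) := fun a => by
    by_cases ha : a ∈ F.In
    · exact congrArg (fun z => g (lg' z)) (F.o_In _ ha).2
    · exact (hφ _ (oIn _ ha)).symm.trans ((gs' _ ha).trans (hφ _ ha))
  have cst := cn _ (fun v => g (lg' (F.ndv v))) hcol fun v => by rw [F.ndv_m]
  rcases isEmpty_or_nonempty V with hV | ⟨⟨v0⟩⟩
  · exact ⟨0, fun a => hV.elim a.1⟩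
  have out : ∀ a ∉ F.In, g a = g (lg' (F.ndv v0)) := fun a ha => (hφ a ha).trans (cst a.1 v0)
  refine ⟨g (lg' (F.ndv v0)), fun a => ?_⟩
  by_cases ha : a ∈ F.In
  swap
  · exact out a ha
  obtain ⟨v, c⟩ := a
  rw [← hIn] at ha
  rcases F'.cases v with ⟨e, b, rfl⟩ | ⟨f, a, b, rfl⟩
  · exact (F'.not_In_u e b c ha).elim
  · obtain ⟨a', b', e⟩ := (hex f).2.2 a b
    rw [(F'.mem_In_w f a b c).1 ha, e]
    refine out _ fun hh => ?_
    rw [← hIn] at hh
    have := (F'.mem_In_w f a' b' _).1 hh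
    simp at this

end Fam
end Pool.Agent.MP_8c1b0d_co.RR

set_option autoImplicit false
set_option linter.unusedSectionVars false
open Finset Module

namespace Pool.Agent.MP_8c1b0d_co.RR
namespace Fam
variable {V E N : Type} [Fintype V] [DecidableEq V] [Fintype E] [DecidableEq E] [Fintype N]
  [DecidableEq N] {t : Sy V} (F : Fam t E N) {K : Type} [Field K] [CharP K 2]
  (p : Pcs (F.L K))

/-- a coordinate of a site -/
def cd : E ⊕ N → E ⊕ N × Bool := Sum.map id fun f => (f, false)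

/-- the block of a node: its piece, or the node itself -/
noncomputable def bl (v : E ⊕ N) : Finset (E ⊕ N × Bool) ⊕ (E ⊕ N) :=
  if h : ∃ π ∈ p.𝒦, cd v ∈ π then .inl h.choose else .inr v

/-- the local constraints -/
def TT : Submodule K (V × Bool → K) where
  carrier := {g | g ∈ F.EI K ∧ (∀ π ∈ p.𝒦, pr π (F.pi K g) ∈ p.R.map (pr π)) ∧
    ∀ h h', F.bl p (F.nd h) = .inr (F.nd h) → F.nd h' = F.nd h → g h' = g h}
  zero_mem' := ⟨Submodule.zero_mem _, fun π _ => by simp, fun _ _ _ _ => rfl⟩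
  add_mem' := fun ha hb => ⟨Submodule.add_mem _ ha.1 hb.1,
    fun π hπ => by simpa only [map_add] using Submodule.add_mem _ (ha.2.1 π hπ) (hb.2.1 π hπ),
    fun h h' h1 h2 => by simp only [Pi.add_apply, ha.2.2 h h' h1 h2, hb.2.2 h h' h1 h2]⟩
  smul_mem' := fun r a ha => ⟨Submodule.smul_mem _ r ha.1,
    fun π hπ => by simpa only [map_smul] using Submodule.smul_mem _ r (ha.2.1 π hπ),
    fun h h' h1 h2 => by simp only [Pi.smul_apply, ha.2.2 h h' h1 h2]⟩

/-- by `disj` -/
theorem bl_inl (v : E ⊕ N) (π : Finset (E ⊕ N × Bool)) :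
    F.bl p v = .inl π ↔ π ∈ p.𝒦 ∧ cd v ∈ π := by
  unfold bl
  split_ifs with h
  · constructor
    · intro e
      exact Sum.inl.inj e ▸ h.choose_spec
    · rintro ⟨h1, h2⟩
      congr 1
      by_contra hne
      exact disjoint_left.1 (p.disj _ h.choose_spec.1 _ h1 hne) h.choose_spec.2 h2
  · exact ⟨fun e => (by cases e), fun a => absurd ⟨π, a⟩ h⟩
theorem bl_inr (v v' : E ⊕ N) : F.bl p v = .inr v' ↔ v = v' ∧ ∀ π ∈ p.𝒦, cd v ∉ π := by
  unfold bl
  split_ifs with h
  · refine ⟨fun e => (by cases e), fun a => ?_⟩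
    obtain ⟨π, h1, h2⟩ := h
    exact absurd h2 (a.2 π h1)
  · exact ⟨fun e => ⟨Sum.inr.inj e, fun π h1 h2 => h ⟨π, h1, h2⟩⟩, fun a => congrArg _ a.1⟩
/-- by `sat` -/
theorem mem_site {π : Finset (E ⊕ N × Bool)} (hπ : π ∈ p.𝒦) (q : E ⊕ N × Bool) :
    cd (site q) ∈ π ↔ q ∈ π := by
  rcases q with e | ⟨f, b⟩
  · rfl
  · exact ⟨p.sat π hπ f false b, p.sat π hπ f b false⟩
theorem g4_set (b : Finset (E ⊕ N × Bool) ⊕ (E ⊕ N)) :
    ({h | F.bl p (F.nd h) = b} : Finset (V × Bool)) =
      ({h | F.nd h ∈ ({v | F.bl p v = b} : Finset (E ⊕ N))} : Finset (V × Bool)) := by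
  ext h
  simp only [mem_filter, mem_univ, true_and]
theorem g4_neu {q : E ⊕ N × Bool} (hq : q ∉ p.𝒦.biUnion id) :
    F.bl p (site q) = .inr (site q) :=
  (F.bl_inr p _ _).2 ⟨rfl, fun π hπ m => hq (mem_biUnion.2 ⟨π, hπ, (F.mem_site p hπ q).1 m⟩)⟩
theorem g4_EI (g g₀ : V × Bool → K) (hE : g₀ ∈ F.EI K) (g1 : ∀ h ∉ F.In, g h = g₀ h)
    (g2 : ∀ h ∈ F.In, g (t.o h) = g h) : g ∈ F.EI K := by
  obtain ⟨-, a, b⟩ := (F.mem_EI g₀).1 hE
  have l : ∀ f i c, g (F.lg f i c) = g₀ (F.lg f i c) := fun f i c =>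
    g1 _ fun m => by simpa using (F.mem_In_w f i c _).1 m
  refine (F.mem_EI g).2 ⟨g2, fun e => ?_, fun f => ?_⟩
  · simp only [g1 _ (F.not_In_u e _ _), a e]
  · simp only [l, b f]
theorem g4_inner (j : V × Bool → K) (j1 : ∀ h ∉ F.In, j h = 0) (j2 : ∀ h ∈ F.In, j (t.o h) = j h)
    (j3 : ∀ h, F.bl p (F.nd h) = .inr (F.nd h) → j h = 0) : j ∈ F.TT p := by
  refine ⟨F.g4_EI j 0 (Submodule.zero_mem _) j1 j2, fun π _ => ?_, fun h h' h1 h2 => ?_⟩
  · rw [F.pi_congr j 0 j1, map_zero, map_zero]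
    exact Submodule.zero_mem _
  · rw [j3 h h1, j3 h' (by rw [h2]; exact h1)]
/-- restriction to a class is `pr π` (`pi_cut` with `S = {v | bl v = inl π}`) -/
theorem pi_cls {π : Finset (E ⊕ N × Bool)} (hπ : π ∈ p.𝒦) (g : V × Bool → K) :
    F.pi K (cut {h | F.bl p (F.nd h) = .inl π} g) = pr π (F.pi K g) := by
  rw [F.g4_set p, F.pi_cut]
  congr 2
  ext q
  simp only [mem_filter, mem_univ, true_and, F.bl_inl p, hπ, F.mem_site p hπ]

theorem g4_cls {π : Finset (E ⊕ N × Bool)} (hπ : π ∈ p.𝒦) (g : V × Bool → K) (hE : g ∈ F.EI K)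
    (h0 : ∀ h, F.bl p (F.nd h) ≠ .inl π → g h = 0) (h1 : pr π (F.pi K g) ∈ p.R.map (pr π)) :
    g ∈ F.TT p := by
  have e : cut {h | F.bl p (F.nd h) = .inl π} g = g := by
    funext h
    rw [cut_apply]
    split_ifs with c
    · rfl
    · exact (h0 h (by simpa only [ne_eq, mem_filter, mem_univ, true_and] using c)).symm
  refine ⟨hE, fun π' hπ' => ?_, fun h h' a b => ?_⟩
  · by_cases c : π' = π
    · rw [c]
      exact h1
    · rw [← e, F.pi_cls p hπ, pr_pr, disjoint_iff_inter_eq_empty.1 (p.disj _ hπ' _ hπ c), pr_empty]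
      exact Submodule.zero_mem _
  · rw [h0 h (by rw [a]; exact fun e => by cases e),
      h0 h' (by rw [b, a]; exact fun e => by cases e)]
theorem g4_sect {π : Finset (E ⊕ N × Bool)} (hπ : π ∈ p.𝒦) (x : V1 K (E ⊕ N × Bool))
    (hx : x ∈ p.R.map (pr π)) : ∃ g ∈ F.TT p, F.pi K g = x := by
  obtain ⟨g, hg, e, -⟩ := F.sect x
  have e1 : pr π x = x := by
    obtain ⟨r, -, rfl⟩ := hx
    rw [pr_pr, inter_self]
  have e2 : F.pi K (cut {h | F.bl p (F.nd h) = .inl π} g) = x := by rw [F.pi_cls p hπ, e, e1]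
  refine ⟨_, F.g4_cls p hπ (cut {h | F.bl p (F.nd h) = .inl π} g) ?_
    (fun h c => if_neg (by simpa only [mem_filter, mem_univ, true_and, ne_eq] using c)) ?_, e2⟩
  · rw [F.g4_set p]
    exact F.cut_EI _ g hg
  · rw [e2, e1]
    exact hx
/-- `cut_EI`, `pi_cut`, `pr_pr`; for another piece the projection is zero -/
theorem TT_loc (b : Finset (E ⊕ N × Bool) ⊕ (E ⊕ N)) :
    ∀ f ∈ F.TT p, cut {h | F.bl p (F.nd h) = b} f ∈ F.TT p := by
  intro f hf
  refine ⟨?_, fun π hπ => ?_, fun h h' h1 h2 => ?_⟩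
  · rw [F.g4_set p]
    exact F.cut_EI _ f hf.1
  · by_cases e : b = .inl π
    · rw [e, F.pi_cls p hπ, pr_pr, inter_self]
      exact hf.2.1 π hπ
    · rw [F.g4_set p, F.pi_cut, pr_pr, eq_empty_of_forall_notMem (s := π ∩ _), pr_empty]
      · exact Submodule.zero_mem _
      · intro q hq
        simp only [mem_inter, mem_filter, mem_univ, true_and] at hq
        exact e (hq.2.symm.trans ((F.bl_inl p _ π).2 ⟨hπ, (F.mem_site p hπ q).2 hq.1⟩))
  · simp only [cut_apply, mem_filter, mem_univ, true_and, h2, hf.2.2 h h' h1 h2]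
/-- `dot_eq`; `pi f` vanishes on neutral sites (`ker_iff`), so it is the sum of its `pr π`
(`pr_biUnion`); `om_pr`, `pr_pr`, `p.iso` -/
theorem TT_iso : ∀ f ∈ F.TT p, ∀ g ∈ F.TT p, f ⬝ᵥ g = 0 := by
  intro f hf g hg
  have e : pr (p.𝒦.biUnion id) (F.pi K f) = F.pi K f := by
    have k : ∀ q, q ∉ p.𝒦.biUnion id → (F.pi K f).1 q = 0 ∧ (F.pi K f).2 q = 0 := fun q hq =>
      (F.ker_iff f hf.1 (site q)).2 (fun h _ h' _ h1 h2 =>
        hf.2.2 h h' (by rw [h1]; exact F.g4_neu p hq) (h2.trans h1.symm)) q rfl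
    refine Prod.ext (funext fun q => ?_) (funext fun q => ?_)
    · rw [s1_pr_fst, cut_apply]
      split_ifs with c
      · rfl
      · exact (k q c).1.symm
    · rw [s1_pr_snd, cut_apply]
      split_ifs with c
      · rfl
      · exact (k q c).2.symm
  rw [F.dot_eq f g hf.1 hg.1, ← e, pr_biUnion p.disj, map_sum, LinearMap.sum_apply]
  refine sum_eq_zero fun π hπ => ?_
  obtain ⟨x, hx, e1⟩ := hf.2.1 π hπ
  obtain ⟨y, hy, e2⟩ := hg.2.1 π hπ
  rw [← inter_self π, ← pr_pr, om_pr, ← e1, ← e2]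
  exact p.iso π hπ x hx y hy
/-- `const_EI` -/
theorem TT_one (v : E ⊕ N) : chi K {h | F.nd h = v} ∈ F.TT p := by
  have e : chi K {h | F.nd h = v} = fun h => (fun u => if u = v then (1 : K) else 0) (F.nd h) := by
    funext h
    simp only [chi, mem_filter, mem_univ, true_and]
  obtain ⟨h1, h2⟩ := F.const_EI (K := K) fun u => if u = v then (1 : K) else 0
  rw [e]
  refine ⟨h1, fun π _ => ?_, fun h h' _ h4 => by simp only [h4]⟩
  rw [h2, map_zero]
  exact Submodule.zero_mem _
/-- Plan: test `w` with `chi {h, o h}` for inner `h` of the class (in `TT`, `pi_congr`) and with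
`TT_one` to get `w ∈ EI`; for `r ∈ R` take `g` from `sect (pr π r)` cut to the class, `g ∈ TT`;
`dot_eq` and `mem_of_orth` (SA.lean) for `U = R.map (pr π)` with `p.iso`, `p.dim`. -/
theorem TT_sd {π : Finset (E ⊕ N × Bool)} (hπ : π ∈ p.𝒦) :
    ∀ w ∈ spt K {h | F.bl p (F.nd h) = .inl π}, (∀ f ∈ F.TT p, w ⬝ᵥ f = 0) → w ∈ F.TT p := by
  intro w hw ho
  have hw' : ∀ h, F.bl p (F.nd h) ≠ .inl π → w h = 0 := fun h c => hw h (by simpa only [mem_filter, mem_univ, true_and, ne_eq] using c)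
  have hE : w ∈ F.EI K := by
    refine ⟨fun h hh => ?_, fun v => by rw [dotProduct_comm]; exact ho _ (F.TT_one p v)⟩
    obtain ⟨o1, o2⟩ := F.o_In h hh
    by_cases c : F.bl p (F.nd h) = .inl π
    · have hφ : chi K {h, t.o h} ∈ F.TT p := by
        refine F.g4_inner p _ (fun a ha => if_neg fun m => ha ?_) (fun a _ => ?_)
          fun a ha => if_neg fun m => ?_
        · rcases mem_insert.1 m with rfl | m
          · exact hh
          · rw [mem_singleton.1 m]; exact o1
        · have i1 : t.o a = h ↔ a = t.o h :=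
            ⟨fun e => by rw [← e, t.oo], fun e => by rw [e, t.oo]⟩
          have i2 : t.o a = t.o h ↔ a = h :=
            ⟨fun e => by rw [← t.oo a, e, t.oo], fun e => by rw [e]⟩
          simp only [chi, mem_insert, mem_singleton, i1, i2, or_comm]
        · have : F.nd a = F.nd h := by
            rcases mem_insert.1 m with rfl | m
            · rfl
            · rw [mem_singleton.1 m]; exact o2
          rw [this, c] at ha
          cases ha
      have e := ho _ hφ
      have e' : w ⬝ᵥ chi K {h, t.o h} = w h + w (t.o h) := by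
        simp only [dotProduct, chi, mul_ite, mul_one, mul_zero]
        rw [sum_ite_mem, univ_inter, sum_pair (t.o_ne h).symm]
      rw [e'] at e
      have two : (2 : K) = 0 := CharTwo.two_eq_zero
      linear_combination e - w h * two
    · rw [hw' h c, hw' _ (by rw [o2]; exact c)]
  refine F.g4_cls p hπ w hE hw' ?_
  refine mem_of_orth (A := π) ?_ ?_ (p.dim π hπ) (by rw [pr_pr, inter_self]) fun x hx => ?_
  · rintro _ ⟨x, -, rfl⟩
    rw [pr_pr, inter_self]
  · rintro _ ⟨x, hx, rfl⟩ _ ⟨y, hy, rfl⟩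
    exact p.iso π hπ x hx y hy
  · obtain ⟨g, hg, e⟩ := F.g4_sect p hπ x hx
    obtain ⟨r, -, rfl⟩ := hx
    rw [← om_pr, pr_pr, inter_self, ← e, ← F.dot_eq g w hg.1 hE, dotProduct_comm]
    exact ho g hg
/-- Every `r ∈ R` is realised, with prescribed symmetric inner values on the class hexagons.
Plan: `r = pi g₀` with `g₀` symmetric and even (`p.le`); on neutral sites `r` vanishes
(`p.tot`), so `g₀` is `c (nd h)` on their non-inner half-edges (`ker_iff`, `exists_leg`); change
the inner values only (`o_In`, `mem_EI`, `pi_congr`). -/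
theorem realise (r : V1 K (E ⊕ N × Bool)) (hr : r ∈ p.R) :
    ∃ g₀ : V × Bool → K, ∀ j : V × Bool → K, (∀ h ∈ F.In, j (t.o h) = j h) →
      ∃ g ∈ F.TT p ⊓ symm K t.o, F.pi K g = r ∧ (∀ h ∉ F.In, g h = g₀ h) ∧
        ∀ h ∈ F.In, F.bl p (F.nd h) ≠ .inr (F.nd h) → g h = j h := by
  obtain ⟨g₀, ⟨hs, hE⟩, e⟩ := p.le hr
  choose leg l1 l2 using F.exists_leg
  refine ⟨g₀, fun j hj => ?_⟩
  let g : V × Bool → K := fun h =>
    if h ∈ F.In then (if F.bl p (F.nd h) = .inr (F.nd h) then g₀ (leg (F.nd h)) else j h) else g₀ h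
  have g1 : ∀ h ∉ F.In, g h = g₀ h := fun h hh => if_neg hh
  have g2 : ∀ h, g (t.o h) = g h := fun h => by
    by_cases hh : h ∈ F.In
    · obtain ⟨o1, o2⟩ := F.o_In h hh
      simp only [g, if_pos hh, if_pos o1, o2, hj h hh]
    · rw [g1 h hh, g1 _ fun c => hh (t.oo h ▸ (F.o_In _ c).1)]
      exact hs h
  have g3 : F.pi K g = r := (F.pi_congr g g₀ g1).trans e
  have g4 : ∀ h, F.bl p (F.nd h) = .inr (F.nd h) → g h = g₀ (leg (F.nd h)) := fun h c => by
    by_cases hh : h ∈ F.In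
    · simp only [g, if_pos hh, if_pos c]
    · rw [g1 h hh]
      refine (F.ker_iff g₀ hE (F.nd h)).1 (fun q hq => ?_) _ (l1 _) h hh (l2 _) rfl
      have hq' : q ∉ p.𝒦.biUnion id := fun m => by
        obtain ⟨π, hπ, m⟩ := mem_biUnion.1 m
        exact ((F.bl_inr p _ _).1 c).2 π hπ (hq ▸ (F.mem_site p hπ q).2 m)
      rw [e, ← p.tot r hr, s1_pr_fst, s1_pr_snd, cut_apply, cut_apply, if_neg hq', if_neg hq']
      exact ⟨rfl, rfl⟩
  refine ⟨g, ⟨⟨F.g4_EI g g₀ hE g1 fun h _ => g2 h, fun π _ => ⟨r, hr, by rw [g3]⟩,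
    fun h h' h1 h2 => ?_⟩, g2⟩, g3, g1, fun h hh c => by simp only [g, if_pos hh, if_neg c]⟩
  rw [g4 h h1, g4 h' (by rw [h2]; exact h1), h2]
/-- `pr π (pi f) = pr π r`; `realise`; `f + g` has zero coordinates on the sites of `π`, so it
is `c (nd h)` on non-inner half-edges of the class; take `j = f + c ∘ nd` -/
theorem TT_rz {π : Finset (E ⊕ N × Bool)} (hπ : π ∈ p.𝒦) : ∀ f ∈ F.TT p,
    ∃ g ∈ F.TT p ⊓ symm K t.o, ∃ c : E ⊕ N → K,
      ∀ h, F.bl p (F.nd h) = .inl π → g h = f h + c (F.nd h) := by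
  intro f hf
  obtain ⟨r, hr, e⟩ := hf.2.1 π hπ
  obtain ⟨g₀, hg⟩ := F.realise p r hr
  obtain ⟨g₁, hg₁, e₁, a₁, -⟩ := hg 0 fun _ _ => rfl
  choose leg l1 l2 using F.exists_leg
  have two : (2 : K) = 0 := CharTwo.two_eq_zero
  obtain ⟨g, hg₂, -, a₂, a₃⟩ := hg (fun h => f h + (f + g₁) (leg (F.nd h))) fun h hh => by
    simp only [(F.o_In h hh).2, hf.1.1 h hh]
  refine ⟨g, hg₂, fun v => (f + g₁) (leg v), fun h c => ?_⟩
  by_cases hh : h ∈ F.In
  · exact a₃ h hh (by rw [c]; exact fun e => by cases e)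
  · have k : (f + g₁) h = (f + g₁) (leg (F.nd h)) := by
      refine (F.ker_iff (f + g₁) (Submodule.add_mem _ hf.1 hg₁.1.1) (F.nd h)).1
        (fun q hq => ?_) _ (l1 _) h hh (l2 _) rfl
      have hq' : q ∈ π := (F.mem_site p hπ q).1 (hq ▸ ((F.bl_inl p _ _).1 c).2)
      have b1 := congrFun (congrArg Prod.fst e) q
      have b2 := congrFun (congrArg Prod.snd e) q
      simp only [s1_pr_fst, s1_pr_snd, cut_apply, if_pos hq'] at b1 b2
      rw [map_add, e₁]
      simp only [Prod.fst_add, Prod.snd_add, Pi.add_apply, ← b1, ← b2]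
      exact ⟨CharTwo.add_self_eq_zero _, CharTwo.add_self_eq_zero _⟩
    show g h = f h + (f + g₁) (leg (F.nd h))
    rw [← k, a₂ h hh, ← a₁ h hh, Pi.add_apply]
    linear_combination -f h * two
/-- `p.ind` with `A = {q | site q ∈ S}`, `sect (pr π x)` cut to the class, `pi_cut` -/
theorem TT_ind {π : Finset (E ⊕ N × Bool)} (hπ : π ∈ p.𝒦) (S : Finset (E ⊕ N))
    (hS : ∀ v ∈ S, F.bl p v = .inl π) (h : ∀ f ∈ F.TT p, cut {h | F.nd h ∈ S} f ∈ F.TT p) :
    S = ∅ ∨ ∀ v, F.bl p v = .inl π → v ∈ S := by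
  have hA : ({q | site q ∈ S} : Finset (E ⊕ N × Bool)) ⊆ π := fun q hq =>
    (F.mem_site p hπ q).1 ((F.bl_inl p _ _).1 (hS _ (mem_filter.1 hq).2)).2
  have sc : ∀ v : E ⊕ N, site (cd v) = v := fun v => by cases v <;> rfl
  rcases p.ind π hπ _ hA (fun f b b' m => mem_filter.2 ⟨mem_univ _, (mem_filter.1 m).2⟩)
    (fun x hx => by
      obtain ⟨g, hg, e⟩ := F.g4_sect p hπ _ ⟨x, hx, rfl⟩
      have := (h g hg).2.1 π hπ
      rwa [F.pi_cut, e, pr_pr, pr_pr, inter_eq_right.2 hA, inter_eq_left.2 hA] at this) with e | e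
  · refine Or.inl (eq_empty_of_forall_notMem fun v hv => ?_)
    have : cd v ∈ ({q | site q ∈ S} : Finset (E ⊕ N × Bool)) :=
      mem_filter.2 ⟨mem_univ _, by rw [sc]; exact hv⟩
    rw [e] at this
    exact notMem_empty _ this
  · refine Or.inr fun v hv => ?_
    have := ((F.bl_inl p _ _).1 hv).2
    rw [← e] at this
    exact sc v ▸ (mem_filter.1 this).2

/-- the half-edge system of a family with pieces -/
noncomputable def hs : HS K (V × Bool) (E ⊕ N) (Finset (E ⊕ N × Bool) ⊕ (E ⊕ N)) where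
  nd := F.nd
  bl := F.bl p
  cls := p.𝒦.map Function.Embedding.inl
  o := t.o
  T := F.TT p
  nd_surj := fun v => (F.exists_leg v).imp fun _ h => h.2
  cls_ne := by
    intro b hb
    obtain ⟨π, hπ, rfl⟩ := mem_map.1 hb
    obtain ⟨q, hq⟩ := p.ne π hπ
    exact ⟨site q, (F.bl_inl p _ π).2 ⟨hπ, (F.mem_site p hπ q).2 hq⟩⟩
  oo := t.oo
  o_ne := t.o_ne
  loc := F.TT_loc p
  iso := F.TT_iso p
  one := F.TT_one p
  neu := by
    intro f hf h h' h1 h2
    rcases e : F.bl p (F.nd h) with π | v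
    · exact absurd (e ▸ mem_map.2 ⟨π, ((F.bl_inl p _ π).1 e).1, rfl⟩) h1
    · have e1 := ((F.bl_inr p _ _).1 e).1
      exact hf.2.2 h h' (e1 ▸ e) ((((F.bl_inr p _ _).1 (h2.trans e)).1).trans e1.symm)
  sd := by
    intro b hb
    obtain ⟨π, hπ, rfl⟩ := mem_map.1 hb
    exact F.TT_sd p hπ
  rz := by
    intro b hb
    obtain ⟨π, hπ, rfl⟩ := mem_map.1 hb
    exact F.TT_rz p hπ
  ind := by
    intro b hb
    obtain ⟨π, hπ, rfl⟩ := mem_map.1 hb
    exact F.TT_ind p hπ

end Fam
end Pool.Agent.MP_8c1b0d_co.RR
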