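import Pool.Agent.MP_8c1b0d_co.RR.S
import Pool.Agent.MP_8c1b0d_co.CB
import Pool.Agent.MP_8c1b0d_co.NB

attribute [-instance] RCLike.charZero_rclike ContinuousSemilinearMapClass.toSemilinearMapClass
  instCharZeroOfIsSemireal FloorSemiring.instCharZero NonUnitalAlgHomClass.instLinearMapClass
  instIsRightCancelAddOfAddRightReflectLE RKHS.instFunLike CoalgHomClass.toSemilinearMapClass
  IdemSemiring.toSemiring List.instDecidableMemOfLawfulBEq Prod.instNonAssocSemiring
  SemilinearIsometryClass.toSemilinearMapClass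
  NonUnitalAlgSemiHomClass.toDistribMulActionSemiHomClass NumberField.instFiniteDimensional
  NumberField.to_charZero SubringClass.toCommRing
  NonUnitalAlgHomClass.instSemilinearMapClassOfNonUnitalAlgSemiHomClassToMonoidHomRingHom
  NormMulClass.toNoZeroDivisors MulRingSeminormClass.toMonoidWithZeroHomClass

set_option autoImplicit false
set_option linter.unusedSectionVars false
open Finset Module

namespace Pool.Agent.MP_8c1b0d_co.RR
namespace Fam
variable {V E N : Type} [Fintype V] [DecidableEq V] [Fintype E] [DecidableEq E] [Fintype N]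
  [DecidableEq N] {t : Sy V} (F : Fam t E N) {K : Type} [Field K] [CharP K 2]
  (p : Pcs (F.L K))

/-- split nodes: ordinary edges that form a piece on their own -/
def spl : Finset (E ⊕ N) := {v | ∃ e, v = .inl e ∧ ({.inl e} : Finset (E ⊕ N × Bool)) ∈ p.𝒦}

open Classical in
/-- vertices of split nodes of type 0 -/
noncomputable def A0 : Finset V :=
  {v | F.ndv v ∈ F.spl p ∧ ∀ x ∈ p.R, x.1 (cd (F.ndv v)) = 0}

/-- vertices of split nodes of type 1 -/
noncomputable def A1 : Finset V := {v | F.ndv v ∈ F.spl p ∧ v ∉ F.A0 p}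

/-- the pairing at split nodes -/
noncomputable def rho (h : V × Bool) : V × Bool :=
  if h.1 ∈ F.A0 p then (h.1, !h.2) else (t.m h.1, h.2)

theorem g5_spl {v : E ⊕ N} : v ∈ F.spl p ↔
    ∃ e, v = .inl e ∧ ({.inl e} : Finset (E ⊕ N × Bool)) ∈ p.𝒦 := by
  simp only [spl, mem_filter, mem_univ, true_and]

theorem g5_A0 {v : V} : v ∈ F.A0 p ↔ F.ndv v ∈ F.spl p ∧ ∀ x ∈ p.R, x.1 (cd (F.ndv v)) = 0 := by
  simp only [A0, Prod.forall, mem_filter, mem_univ, true_and]

theorem g5_A1 {v : V} : v ∈ F.A1 p ↔ F.ndv v ∈ F.spl p ∧ v ∉ F.A0 p := by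
  simp only [A1, mem_filter, mem_univ, true_and]

theorem g5_q {e : E} (he : ({.inl e} : Finset (E ⊕ N × Bool)) ∈ p.𝒦) :
    ∀ x ∈ p.R, x.1 (.inl e) * x.2 (.inl e) = 0 := by
  intro x hx
  have h := p.q0 _ he x hx
  rw [bb_apply, sum_eq_single (.inl e)] at h
  · simpa [pr, cut_apply] using h
  · intro q _ hq
    simp [pr, cut_apply, hq]
  · simp only [mem_univ, not_true_eq_false, mul_eq_zero, IsEmpty.forall_iff]

theorem g5_fib_u (e : E) : #{v | F.ndv v = .inl e} = 2 := by
  have h : ({v | F.ndv v = .inl e} : Finset V) = univ.image (F.u e) := by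
    ext v
    simp only [mem_filter, mem_univ, true_and, mem_image]
    constructor
    · intro h
      rcases F.cases v with ⟨e', b, rfl⟩ | ⟨f, i, b, rfl⟩
      · rw [F.ndv_u] at h
        exact ⟨b, by rw [Sum.inl.inj h]⟩
      · rw [F.ndv_w] at h
        cases h
    · rintro ⟨b, rfl⟩
      exact F.ndv_u e b
  rw [h, card_image_of_injective _ fun b b' hb => by simpa [u] using hb]
  rfl

theorem g5_fib_w (f : N) : #{v | F.ndv v = .inr f} = 6 := by
  have h : ({v | F.ndv v = .inr f} : Finset V) =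
      univ.image fun q : Fin 3 × Bool => F.w f q.1 q.2 := by
    ext v
    simp only [mem_filter, mem_univ, true_and, mem_image]
    constructor
    · intro h
      rcases F.cases v with ⟨e', b, rfl⟩ | ⟨f', i, b, rfl⟩
      · rw [F.ndv_u] at h
        cases h
      · rw [F.ndv_w] at h
        exact ⟨(i, b), by rw [Sum.inr.inj h]⟩
    · rintro ⟨q, rfl⟩
      exact F.ndv_w f q.1 q.2
  rw [h, card_image_of_injective _ fun b b' hb => by simpa [w, Prod.ext_iff] using hb]
  rfl

theorem g5_fib_nd (v : E ⊕ N) : #{h | F.nd h = v} = 2 * #{v' | F.ndv v' = v} := by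
  have h : ({h | F.nd h = v} : Finset (V × Bool)) = ({v' | F.ndv v' = v} : Finset V) ×ˢ univ := by
    ext h
    simp only [nd, mem_filter, mem_univ, true_and, Fintype.univ_bool, mem_product, mem_insert, mem_singleton, Bool.eq_true_or_eq_false_self, and_true]
  rw [h, card_product, mul_comm]
  rfl

theorem g5_count {X : Type} [Fintype X] (φ : X → E ⊕ N) (α β : ℕ)
    (h1 : ∀ e, #{x | φ x = .inl e} = α) (h2 : ∀ f, #{x | φ x = .inr f} = β) (C : E ⊕ N → Prop)
    [DecidablePred C] : #{x | C (φ x)} = α * #{e | C (.inl e)} + β * #{f | C (.inr f)} := by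
  have h : ∀ v, #{x ∈ ({x | C (φ x)} : Finset X) | φ x = v} =
      if C v then #{x | φ x = v} else 0 := by
    intro v
    split_ifs with hv
    · refine congrArg card ?_
      ext x
      simp only [mem_filter, mem_univ, true_and, and_iff_right_iff_imp]
      exact fun e => e ▸ hv
    · rw [card_eq_zero]
      ext x
      simp only [mem_filter, mem_univ, true_and, notMem_empty, iff_false]
      exact fun e => hv (e.2 ▸ e.1)
  rw [card_eq_sum_card_fiberwise (f := φ) (t := univ) fun _ _ => mem_coe.2 (mem_univ _),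
    sum_congr rfl fun v _ => h v, Fintype.sum_sum_type]
  simp only [h1, h2]
  rw [← sum_filter, ← sum_filter, sum_const, sum_const, smul_eq_mul, smul_eq_mul, mul_comm α,
    mul_comm β]

theorem g5_cls (v : E ⊕ N) : F.bl p v ≠ .inr v ↔ ∃ π ∈ p.𝒦, cd v ∈ π := by
  rw [Ne, F.bl_inr]
  simp

theorem g5_cls' (v : E ⊕ N) : F.bl p v ∈ p.𝒦.map Function.Embedding.inl ↔ F.bl p v ≠ .inr v := by
  rw [g5_cls, mem_map]
  constructor
  · rintro ⟨π, -, e⟩
    exact ⟨π, (F.bl_inl p v π).1 e.symm⟩
  · rintro ⟨π, h⟩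
    exact ⟨π, h.1, ((F.bl_inl p v π).2 h).symm⟩

/-- Type 1 means that the second coordinate vanishes: `p.q0` for `π = {inl e}` says
`x.1 (inl e) * x.2 (inl e) = 0` for all `x ∈ R`; use it for `x`, `x₀`, `x + x₀` with
`x₀.1 (inl e) ≠ 0`. -/
theorem A1_snd (v : V) (hv : v ∈ F.A1 p) : ∀ x ∈ p.R, x.2 (cd (F.ndv v)) = 0 := by
  obtain ⟨h1, h2⟩ := (F.g5_A1 p).1 hv
  rw [F.g5_A0 p, not_and] at h2
  have h3 := h2 h1
  obtain ⟨e, he, hK⟩ := (F.g5_spl p).1 h1
  rw [he] at h3 ⊢
  simp only [not_forall] at h3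
  obtain ⟨x₀, h0, hne⟩ := h3
  intro x hx
  have a := F.g5_q p hK x hx
  have b := F.g5_q p hK x₀ h0
  have c := F.g5_q p hK _ (p.R.add_mem hx h0)
  have d : x₀.2 (.inl e) = 0 := (mul_eq_zero.1 b).resolve_left hne
  simp only [Prod.fst_add, Prod.snd_add, Pi.add_apply, d, add_zero, add_mul, a, zero_add] at c
  exact (mul_eq_zero.1 c).resolve_left hne

theorem A0_m (v : V) : t.m v ∈ F.A0 p ↔ v ∈ F.A0 p := by
  rw [F.g5_A0 p, F.g5_A0 p, F.ndv_m]

/-- each split node has two vertices -/
theorem card_A : #(F.A0 p) + #(F.A1 p) = 2 * #(F.spl p) := by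
  have h1 : F.A0 p ∪ F.A1 p = ({v | F.ndv v ∈ F.spl p} : Finset V) := by
    ext v
    rw [mem_union, F.g5_A1 p, mem_filter]
    have := (F.g5_A0 p (v := v)).1
    have := mem_univ v
    tauto
  have h2 : Disjoint (F.A0 p) (F.A1 p) :=
    disjoint_left.2 fun v a b => ((F.g5_A1 p).1 b).2 a
  have h3 : #{f | (.inr f : E ⊕ N) ∈ F.spl p} = 0 := by
    rw [card_eq_zero]
    ext f
    simp only [F.g5_spl p, reduceCtorEq, false_and, exists_false, filter_false, notMem_empty]
  have h4 := g5_count (fun v : E ⊕ N => v) 1 1 (fun e => by simp only [filter_eq', mem_univ, ↓ reduceIte, card_singleton])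
    (fun e => by simp only [filter_eq', mem_univ, ↓ reduceIte, card_singleton]) (· ∈ F.spl p)
  have h5 := g5_count F.ndv 2 6 F.g5_fib_u F.g5_fib_w (· ∈ F.spl p)
  rw [filter_univ_mem] at h4
  rw [← card_union_of_disjoint h2, h1]
  omega

theorem g5_inv : ∀ f ∈ F.TT p, ∀ h, F.nd h ∈ F.spl p → f (F.rho p h) = f h := by
  rintro f hf ⟨v, c⟩ hh
  obtain ⟨e, he, hK⟩ := (F.g5_spl p).1 hh
  obtain ⟨r, hr, er⟩ := hf.2.1 _ hK
  have e1 : r.1 (.inl e) = f (F.u e false, false) + f (F.u e false, true) := by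
    simpa [pr, cut_apply, pi] using congrFun (congrArg Prod.fst er) (.inl e)
  have e2 : r.2 (.inl e) = f (F.u e false, false) + f (F.u e true, false) := by
    simpa [pr, cut_apply, pi] using congrFun (congrArg Prod.snd er) (.inl e)
  have ev := ((F.mem_EI f).1 hf.1).2.1 e
  have two : (2 : K) = 0 := CharTwo.two_eq_zero
  change F.ndv v = _ at he
  obtain ⟨b, rfl⟩ : ∃ b, v = F.u e b := by
    rcases F.cases v with ⟨e', b, rfl⟩ | ⟨f, i, b, rfl⟩
    · rw [F.ndv_u] at he
      exact ⟨b, by rw [Sum.inl.inj he]⟩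
    · rw [F.ndv_w] at he
      cases he
  unfold rho
  split_ifs with h0
  · have z := ((F.g5_A0 p).1 h0).2 r hr
    rw [he] at z
    have z' := e1.symm.trans z
    cases b <;> cases c <;> simp only [Bool.not_false, Bool.not_true]
    · linear_combination z' - f (F.u e false, false) * two
    · linear_combination z' - f (F.u e false, true) * two
    · linear_combination ev - z' - f (F.u e true, false) * two
    · linear_combination ev - z' - f (F.u e true, true) * two
  · have z := F.A1_snd p _ ((F.g5_A1 p).2 ⟨hh, h0⟩) r hr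
    rw [he] at z
    have z' := e2.symm.trans z
    have m : t.m (F.u e b) = F.u e (!b) := F.m1 e b
    simp only [m]
    cases b <;> cases c <;> simp only [Bool.not_false, Bool.not_true]
    · linear_combination z' - f (F.u e false, false) * two
    · linear_combination ev - z' - f (F.u e false, true) * two
    · linear_combination z' - f (F.u e true, false) * two
    · linear_combination ev - z' - f (F.u e true, true) * two

theorem g5_nd (h : V × Bool) : F.nd (F.rho p h) = F.nd h := by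
  unfold rho
  split_ifs
  · rfl
  · exact F.ndv_m _

theorem g5_ne (h : V × Bool) : F.rho p h ≠ h := by
  unfold rho
  split_ifs
  · exact fun e => by simpa using congrArg Prod.snd e
  · exact fun e => t.m_ne _ (congrArg Prod.fst e)

theorem g5_bl {e : E} (hK : ({.inl e} : Finset (E ⊕ N × Bool)) ∈ p.𝒦) :
    F.bl p (.inl e) = .inl {.inl e} :=
  (F.bl_inl p _ _).2 ⟨hK, mem_singleton_self _⟩

/-- `inv`: for `f ∈ TT`, `pr {inl e} (pi f) = pr {inl e} r`, so the first (type 0) or the second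
(type 1) coordinate vanishes; evenness `mem_EI` gives the other pair. `mem`: by `sd`, since
`chi {h, ρ h} ⬝ᵥ f = f h + f (ρ h) = 0`. -/
theorem spl_ok : (F.hs p).Spl (F.spl p) (F.rho p) := by
  refine ⟨fun v hv => ?_, fun v hv v' e' => ?_, fun v hv => ?_, fun h _ => F.g5_nd p h,
    fun h _ => ?_, fun h _ => F.g5_ne p h, F.g5_inv p, fun h hh => ?_⟩
  · obtain ⟨e, rfl, hK⟩ := (F.g5_spl p).1 hv
    exact mem_map.2 ⟨_, hK, (F.g5_bl p hK).symm⟩
  · obtain ⟨e, rfl, hK⟩ := (F.g5_spl p).1 hv
    have h := mem_singleton.1 ((F.bl_inl p _ _).1 (e'.trans (F.g5_bl p hK))).2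
    rcases v' with a | a
    · exact congrArg Sum.inl (Sum.inl.inj h)
    · cases h
  · obtain ⟨e, rfl, -⟩ := (F.g5_spl p).1 hv
    exact (F.g5_fib_nd _).trans (by rw [F.g5_fib_u])
  · by_cases h0 : h.1 ∈ F.A0 p
    · simp [rho, h0]
    · simp [rho, h0, F.A0_m p, t.mm]
  · obtain ⟨e, he, hK⟩ := (F.g5_spl p).1 hh
    change F.nd h = _ at he
    refine F.TT_sd p hK _ (mem_spt.2 fun a ha => if_neg fun c => ha ?_) fun f hf => ?_
    · rw [mem_filter]
      refine ⟨mem_univ _, ?_⟩
      rcases mem_insert.1 c with rfl | c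
      · rw [he, F.g5_bl p hK]
      · rw [mem_singleton.1 c, F.g5_nd, he, F.g5_bl p hK]
    · simp only [dotProduct, chi, ite_mul, one_mul, zero_mul]
      rw [← sum_filter, filter_univ_mem, sum_pair (F.g5_ne p h).symm, F.g5_inv p f hf h hh]
      exact CharTwo.add_self_eq_zero _

/-- Plan: let `a`, `b` be the numbers of ordinary and of hexagon class nodes: `nc = a + b`,
`hc = 4 a + 12 b`, `∑ #π = a + 2 b` (card of the disjoint union, `mem_site`), `#cls = #𝒦`. -/
theorem counts : ∃ a b : ℕ, (F.hs p).nc = a + b ∧ (F.hs p).hc = 4 * a + 12 * b ∧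
    ∑ π ∈ p.𝒦, #π = a + 2 * b ∧ b = #{f | F.bl p (.inr f) ≠ .inr (.inr f)} := by
  refine ⟨#{e | F.bl p (.inl e) ≠ .inr (.inl e)}, _, ?_, ?_, ?_, rfl⟩
  · have h := g5_count (fun v : E ⊕ N => v) 1 1 (fun e => by simp only [filter_eq', mem_univ, ↓ reduceIte, card_singleton])
      (fun e => by simp only [filter_eq', mem_univ, ↓ reduceIte, card_singleton]) (fun v => F.bl p v ≠ .inr v)
    rw [one_mul, one_mul] at h
    exact (congrArg card (filter_congr fun v _ => F.g5_cls' p v)).trans h
  · have h := g5_count F.nd 4 12 (fun e => by rw [F.g5_fib_nd, F.g5_fib_u])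
      (fun f => by rw [F.g5_fib_nd, F.g5_fib_w]) (fun v => F.bl p v ≠ .inr v)
    exact (congrArg card (filter_congr fun h _ => F.g5_cls' p (F.nd h))).trans h
  · have s1 : ∀ e : E, #{q : E ⊕ N × Bool | site q = .inl e} = 1 := fun e => by
      rw [card_eq_one]
      refine ⟨.inl e, ?_⟩
      ext (a | a) <;> simp only [site, mem_filter, mem_univ, Sum.map_inl, id_eq, Sum.inl.injEq, true_and, mem_singleton, Sum.map_inr, reduceCtorEq, and_false]
    have s2 : ∀ f : N, #{q : E ⊕ N × Bool | site q = .inr f} = 2 := fun f => by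
      rw [card_eq_two]
      refine ⟨.inr (f, false), .inr (f, true), by simp, ?_⟩
      ext (a | ⟨a, _ | _⟩) <;> simp only [site, mem_filter, mem_univ, Sum.map_inl, id_eq, reduceCtorEq, and_false, mem_insert, mem_singleton, or_self, Sum.map_inr, Sum.inr.injEq, true_and, Prod.mk.injEq, and_true, Bool.false_eq_true, or_false, Bool.true_eq_false, false_or]
    have h := g5_count site 1 2 s1 s2 (fun v => F.bl p v ≠ .inr v)
    rw [one_mul] at h
    rw [← h]
    refine (card_biUnion (t := id) fun π a π' b c => p.disj π a π' b c).symm.trans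
      (congrArg card ?_)
    ext q
    rw [mem_biUnion, mem_filter, F.g5_cls p]
    simp only [mem_univ, true_and, id]
    exact exists_congr fun π => and_congr_right fun hπ => (F.mem_site p hπ q).symm

/-- Plan: `pi` maps `TT ⊓ symm o` onto a space containing `R` (`realise`). Its kernel contains
the image of the injective linear map from `K × ({f | class} × Fin 3 → K)` sending `(d, j)` to
the function with value `d + j (f, i)` on the two halves `(w f i true, c f)`,
`(w f (i+1) false, c f)` of the inner edge `i` of a class hexagon and `d` elsewhere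
(`pi_congr`, `const_EI`, `mem_EI`; a non-inner half-edge exists as `V` is nonempty). -/
theorem gamma_ge [Nonempty V] :
    finrank K p.R + 1 + 3 * #{f | F.bl p (.inr f) ≠ .inr (.inr f)} ≤ (F.hs p).γ := by
  obtain ⟨h₀, n₀, -⟩ := F.exists_leg (F.ndv (Classical.arbitrary V))
  let I := {f // F.bl p (.inr f) ≠ .inr (.inr f)} × Fin 3
  let Ψ : (V × Bool → K) →ₗ[K] V1 K (E ⊕ N × Bool) × K × (I → K) :=
    (F.pi K).prod ((LinearMap.proj h₀).prod
      (LinearMap.funLeft K K fun q : I => (F.w q.1.1 q.2 true, F.c q.1.1)))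
  let ι : (p.R × K × (I → K)) →ₗ[K] V1 K (E ⊕ N × Bool) × K × (I → K) :=
    p.R.subtype.prodMap LinearMap.id
  have hι : Function.Injective ι := Subtype.val_injective.prodMap Function.injective_id
  have le : LinearMap.range ι ≤ (F.TT p ⊓ symm K t.o).map Ψ := by
    rintro _ ⟨⟨r, d, j⟩, rfl⟩
    obtain ⟨g₀, hg⟩ := F.realise p r.1 r.2
    let J : N → Fin 3 → K := fun f i =>
      if h : F.bl p (.inr f) ≠ .inr (.inr f) then j (⟨f, h⟩, i) - (d - g₀ h₀) else 0
    let j' : V × Bool → K := fun h => Sum.elim (fun _ => 0)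
      (fun q : N × Fin 3 × Bool => if q.2.2 then J q.1 q.2.1 else J q.1 (q.2.1 - 1))
      (F.vx.symm h.1)
    have j1 : ∀ f i c, j' (F.w f i true, c) = J f i := fun f i c => by simp [j', w]
    have j2 : ∀ f i c, j' (F.w f (i + 1) false, c) = J f i := fun f i c => by simp [j', w]
    obtain ⟨g, m, e1, e2, e3⟩ := hg j' (by
      rintro ⟨v, c⟩ hh
      rcases F.cases v with ⟨e, b, rfl⟩ | ⟨f, i, b, rfl⟩
      · exact absurd hh (F.not_In_u e b c)
      · obtain rfl := (F.mem_In_w f i b c).1 hh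
        cases b
        · obtain ⟨i, rfl⟩ : ∃ i', i = i' + 1 := ⟨i - 1, (sub_add_cancel _ _).symm⟩
          rw [F.hx', j1, j2]
        · have a : t.o (F.w f i true, F.c f) = (F.w f (i + 1) false, F.c f) := F.hx f i
          rw [a, j1, j2])
    obtain ⟨c1, c2⟩ := F.const_EI (K := K) fun _ => d - g₀ h₀
    refine ⟨g + fun _ => d - g₀ h₀, Submodule.add_mem _ m
      ⟨⟨c1, fun π _ => by rw [c2, map_zero]; exact Submodule.zero_mem _, fun _ _ _ _ => rfl⟩,
        fun _ => rfl⟩, Prod.ext ?_ (Prod.ext ?_ ?_)⟩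
    · change F.pi K _ = r.1
      rw [map_add, c2, add_zero, e1]
    · change g h₀ + (d - g₀ h₀) = d
      rw [e2 h₀ n₀, add_sub_cancel]
    · funext q
      change g (F.w q.1.1 q.2 true, F.c q.1.1) + (d - g₀ h₀) = j q
      rw [e3 _ ((F.mem_In_w _ _ _ _).2 rfl) (by rw [nd, F.ndv_w]; exact q.1.2), j1]
      simp only [J]
      rw [dif_pos q.1.2, sub_add_cancel]
  have h1 := (Submodule.finrank_mono le).trans (Submodule.finrank_map_le _ _)
  rw [LinearMap.finrank_range_of_inj hι, Module.finrank_prod, Module.finrank_prod,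
    Module.finrank_self, Module.finrank_fintype_fun_eq_card, Fintype.card_prod, Fintype.card_fin,
    Fintype.card_subtype] at h1
  refine le_of_eq_of_le ?_ h1
  ring

/-- `counts`, `gamma_ge`, `p.cnt` -/
theorem input [Nonempty V] :
    3 + (F.hs p).hc ≤ 2 * (F.hs p).γ + 2 * (F.hs p).nc + #(F.hs p).cls := by
  obtain ⟨a, b, h1, h2, h3, h4⟩ := F.counts p
  have h5 := F.gamma_ge p
  have h6 := p.cnt
  have h7 : #(F.hs p).cls = #p.𝒦 := card_map _
  omega

end Fam
end Pool.Agent.MP_8c1b0d_co.RR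

set_option autoImplicit false
set_option linter.unusedSectionVars false
open Finset Module

namespace Pool.Agent.MP_8c1b0d_co.RR
variable {V : Type} [Fintype V] [DecidableEq V] (t : Sy V)

theorem g6_pair {X M : Type} [Fintype X] [AddCommMonoid M] (σ : X → X) (hσ : ∀ x, σ (σ x) = x)
    (η : X → Bool) (hη : ∀ x, η (σ x) = !η x) (b : Bool) (f : X → M) :
    ∑ x, f x = ∑ x with η x = b, (f x + f (σ x)) := by
  rw [sum_add_distrib, ← sum_filter_add_sum_filter_not univ fun x => η x = b]
  congr 1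
  refine sum_nbij' σ σ (fun x hx => ?_) (fun x hx => ?_) (fun x _ => hσ x) (fun x _ => hσ x)
    fun x _ => by rw [hσ]
  · simp only [mem_filter, mem_univ, true_and, hη] at hx ⊢
    revert hx; cases η x <;> cases b <;> simp
  · simp only [mem_filter, mem_univ, true_and, hη] at hx ⊢
    revert hx; cases η x <;> cases b <;> simp

theorem g6_four {M : Type} [AddCommMonoid M] (τ : V → Bool) (hτ : ∀ v, τ (t.m v) = !τ v)
    (f : V × Bool → M) : ∑ h, f h = ∑ v with τ v = false,
      (f (v, false) + f (v, true) + f (t.m v, false) + f (t.m v, true)) := by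
  rw [Fintype.sum_prod_type, g6_pair t.m t.mm τ hτ false]
  refine sum_congr rfl fun v _ => ?_
  rw [Fintype.sum_bool, Fintype.sum_bool]
  abel

/-- Half of the support size in two ways. `τ` picks one end of every `m`-edge, `η` one half of
every `x`- or `y`-edge. Plan: let `ℓ : ZMod 2 → ZMod 4` send `0, 1` to `0, 1` and `dbl a = 2 * ℓ a`
(additive and injective, `decide`). `∑ h, ℓ (g h)` equals `∑ over η h, dbl (g h)` (pair `h` with
`o h`) and equals the sum over `τ v = false` of `ℓ a + ℓ b + ℓ c + ℓ d` for the four values, which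
is `dbl ((a+b)(a+c) + b + c)` when `a+b+c+d = 0` (`decide`). -/
theorem Sy.half_sum (τ : V → Bool) (hτ : ∀ v, τ (t.m v) = !τ v) (η : V × Bool → Bool)
    (hη : ∀ h, η (t.o h) = !η h) (g : V × Bool → ZMod 2) (sy : ∀ h, g (t.o h) = g h)
    (ev : ∀ v, g (v, false) + g (v, true) + g (t.m v, false) + g (t.m v, true) = 0) :
    ∑ h with η h = true, g h = ∑ v with τ v = false,
      ((g (v, false) + g (v, true)) * (g (v, false) + g (t.m v, false)) + g (v, true) +
        g (t.m v, false)) := by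
  let l : ZMod 2 → ZMod 4 := fun a => if a = 0 then 0 else 1
  let dbl : ZMod 2 →+ ZMod 4 := AddMonoidHom.mk' (fun a => l a + l a) (by decide)
  have inj : Function.Injective dbl := by
    intro a b
    revert a b
    decide
  have key : ∀ a b c d : ZMod 2, a + b + c + d = 0 →
      l a + l b + l c + l d = dbl ((a + b) * (a + c) + b + c) := by decide
  apply inj
  rw [map_sum, map_sum]
  have h1 := g6_pair t.o t.oo η hη true fun h => l (g h)
  have h2 := g6_four t τ hτ fun h => l (g h)
  simp only [sy] at h1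
  exact h1.symm.trans (h2.trans (sum_congr rfl fun v _ => key _ _ _ _ (ev v)))

/-- ORIENTATION. Plan: over `ZMod 2`. `d₀ (v, c) = τ v + c`, `η` any choice of one half of each
edge (`Fintype.equivFin`), `W = d₀ + η`. `A` = symmetric functions supported on `P`, `C` = the
functions that are even at every `m`-edge, with equal values on the pairs at `A0`, `A1`. By
`half_sum` and `hQ`, `W ⬝ᵥ g = 0` on `A ⊓ C`; `orth_inf` gives `W = a + φ`. Testing with
`chi {h, h'}`: `a (o h) = a h` for `h ∈ P`; `φ (v,true) = φ (v,false)` for `v ∉ A1`;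
`φ (m v, c) = φ (v, c)` for `v ∉ A0`. Take `d h = decide (d₀ h + φ h = 1)`. -/
theorem Sy.ori (A0 A1 : Finset V) (m0 : ∀ v, t.m v ∈ A0 ↔ v ∈ A0) (m1 : ∀ v, t.m v ∈ A1 ↔ v ∈ A1)
    (dj : Disjoint A0 A1) (P : Finset (V × Bool)) (hP : ∀ h ∈ P, t.o h ∈ P) (τ : V → Bool)
    (hτ : ∀ v, τ (t.m v) = !τ v)
    (hQ : ∀ g : V × Bool → ZMod 2, (∀ h, g (t.o h) = g h) → (∀ h ∉ P, g h = 0) →
      (∀ v, g (v, false) + g (v, true) + g (t.m v, false) + g (t.m v, true) = 0) →
      (∀ v ∈ A0, g (v, true) = g (v, false)) → (∀ v ∈ A1, ∀ c, g (t.m v, c) = g (v, c)) →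
      ∑ v with τ v = false,
        (g (v, false) + g (v, true)) * (g (v, false) + g (t.m v, false)) = 0) :
    ∃ d : V × Bool → Bool, (∀ v ∉ A1, d (v, true) ≠ d (v, false)) ∧
      (∀ v ∉ A0, ∀ c, d (t.m v, c) ≠ d (v, c)) ∧ ∀ h ∈ P, d (t.o h) ≠ d h := by
  obtain ⟨η, hη⟩ : ∃ η : V × Bool → Bool, ∀ h, η (t.o h) = !η h := by
    let e := Fintype.equivFin (V × Bool)
    refine ⟨fun h => decide (e h < e (t.o h)), fun h => ?_⟩
    have := e.injective.ne (t.o_ne h)
    simp only [t.oo, ← decide_not, decide_eq_decide, not_lt]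
    exact ⟨le_of_lt, fun h => lt_of_le_of_ne h this⟩
  let β : Bool → ZMod 2 := fun b => if b = true then 1 else 0
  have βn : ∀ b, β (!b) = β b + 1 := by decide
  let A : Submodule (ZMod 2) (V × Bool → ZMod 2) :=
    { carrier := {g | (∀ h, g (t.o h) = g h) ∧ ∀ h ∉ P, g h = 0}
      zero_mem' := ⟨fun _ => rfl, fun _ _ => rfl⟩
      add_mem' := fun ha hb => ⟨fun h => by simp only [Pi.add_apply, ha.1 h, hb.1 h],
        fun h hh => by simp only [Pi.add_apply, ha.2 h hh, hb.2 h hh, add_zero]⟩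
      smul_mem' := fun r a ha => ⟨fun h => by simp only [Pi.smul_apply, ha.1 h],
        fun h hh => by simp only [Pi.smul_apply, ha.2 h hh, smul_zero]⟩ }
  let C : Submodule (ZMod 2) (V × Bool → ZMod 2) :=
    { carrier := {g |
        (∀ v, g (v, false) + g (v, true) + g (t.m v, false) + g (t.m v, true) = 0) ∧
        (∀ v ∈ A0, g (v, true) = g (v, false)) ∧ ∀ v ∈ A1, ∀ c, g (t.m v, c) = g (v, c)}
      zero_mem' := ⟨fun _ => by simp, fun _ _ => rfl, fun _ _ _ => rfl⟩
      add_mem' := fun ha hb => ⟨fun v => by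
          simp only [Pi.add_apply]; linear_combination ha.1 v + hb.1 v,
        fun v hv => by simp only [Pi.add_apply, ha.2.1 v hv, hb.2.1 v hv],
        fun v hv c => by simp only [Pi.add_apply, ha.2.2 v hv, hb.2.2 v hv]⟩
      smul_mem' := fun r a ha => ⟨fun v => by
          simp only [Pi.smul_apply, smul_eq_mul]; linear_combination r * ha.1 v,
        fun v hv => by simp only [Pi.smul_apply, ha.2.1 v hv],
        fun v hv c => by simp only [Pi.smul_apply, ha.2.2 v hv]⟩ }
  have two : (2 : ZMod 2) = 0 := rfl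
  obtain ⟨a, φ, hW, ha, hφ⟩ := orth_inf A C (fun h => β (τ h.1) + β h.2 + β (η h)) fun g hg => by
    have h1 := t.half_sum τ hτ η hη g hg.1.1 hg.2.1
    have h2 := hQ g hg.1.1 hg.1.2 hg.2.1 hg.2.2.1 hg.2.2.2
    have h3 : ∑ h, β (η h) * g h = ∑ h with η h = true, g h := by
      simp only [β, ite_mul, one_mul, zero_mul, sum_filter]
    have h4 : ∑ h, (β (τ h.1) + β h.2) * g h =
        ∑ v with τ v = false, (g (v, true) + g (t.m v, false)) := by
      rw [g6_four t τ hτ]
      refine sum_congr rfl fun v hv => ?_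
      simp only [hτ, (mem_filter.1 hv).2, β, Bool.not_false, Bool.false_eq_true, if_true, if_false]
      linear_combination g (t.m v, true) * two
    simp only [add_assoc _ (g (_, true)), sum_add_distrib (g := fun v => g (v, true) + _), h2] at h1
    simp only [dotProduct, add_mul (β _ + β _), sum_add_distrib (g := fun h => β (η h) * g h), h3,
      h4, h1]
    linear_combination (∑ v with τ v = false, (g (v, true) + g (t.m v, false))) * two
  have dot : ∀ (w : V × Bool → ZMod 2) h h', w ⬝ᵥ (Pi.single h 1 + Pi.single h' 1) = 0 →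
      w h' = w h := fun w h h' e => by
    rw [dotProduct_add, dotProduct_single, dotProduct_single] at e
    linear_combination e - w h * two
  have mi : ∀ u v, t.m u = v ↔ u = t.m v := fun u v =>
    ⟨fun e => by rw [← e, t.mm], fun e => by rw [e, t.mm]⟩
  have oi : ∀ u v, t.o u = v ↔ u = t.o v := fun u v =>
    ⟨fun e => by rw [← e, t.oo], fun e => by rw [e, t.oo]⟩
  have dec : ∀ x y : ZMod 2, x = y + 1 → decide (x = 1) ≠ decide (y = 1) := by decide
  refine ⟨fun h => decide (β (τ h.1) + β h.2 + φ h = 1), fun v hv => dec _ _ ?_,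
    fun v hv c => dec _ _ ?_, fun h hh => dec _ _ ?_⟩
  · rw [dot φ (v, false) (v, true) (hφ _ ⟨fun u => ?_, fun u _ => ?_, fun u hu c => ?_⟩)]
    · simp only [β, Bool.false_eq_true, if_true, if_false]; ring
    · simp only [Pi.add_apply, Pi.single_apply, Prod.mk.injEq, and_true, Bool.false_eq_true,
        Bool.true_eq_false, and_false, if_false]
      linear_combination ((if u = v then 1 else 0) + if t.m u = v then 1 else 0) * two
    · simp [Pi.single_apply]
    · have h1 : u ≠ v := fun e => hv (e ▸ hu)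
      have h2 : t.m u ≠ v := fun e => hv (e ▸ (m1 u).2 hu)
      simp [h1, h2]
  · rw [dot φ (v, c) (t.m v, c) (hφ _ ⟨fun u => ?_, fun u hu => ?_, fun u _ c' => ?_⟩)]
    · simp only [hτ, βn]; ring
    · simp only [Pi.add_apply, Pi.single_apply, Prod.mk.injEq, mi, t.mm]
      linear_combination ((if u = v ∧ false = c then 1 else 0) +
        (if u = t.m v ∧ false = c then 1 else 0) + (if u = v ∧ true = c then 1 else 0) +
        if u = t.m v ∧ true = c then 1 else 0) * two
    · have h1 : u ≠ v := fun e => hv (e ▸ hu)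
      have h2 : u ≠ t.m v := fun e => hv ((m0 v).1 (e ▸ hu))
      simp [h1, h2]
    · simp only [Pi.add_apply, Pi.single_apply, Prod.mk.injEq, mi, t.mm, add_comm]
  · have h1 := dot a h (t.o h) (ha _ ⟨fun u => ?_, fun u hu => ?_⟩)
    · have h2 := congrFun hW h
      have h3 := congrFun hW (t.o h)
      simp only [Pi.add_apply, hη, βn] at h2 h3
      linear_combination h3 - h2 + h1 + (φ (t.o h) - φ h - 1) * two
    · simp only [Pi.add_apply, Pi.single_apply, oi, t.oo, add_comm]
    · have h1 : u ≠ h := fun e => hu (e ▸ hh)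
      have h2 : u ≠ t.o h := fun e => hu (e ▸ hP h hh)
      simp [h1, h2]

namespace Fam
variable {E N : Type} [Fintype E] [DecidableEq E] [Fintype N] [DecidableEq N] {t : Sy V}
  (F : Fam t E N) {K : Type} [Field K] [CharP K 2]

theorem g6_hex {a0 b0 a1 b1 a2 b2 k0 k1 k2 : K} (e0 : a0 + k0 + b0 + k1 = 0)
    (e1 : a1 + k1 + b1 + k2 = 0) (e2 : a2 + k2 + b2 + k0 = 0) :
    (a0 + k0) * (a0 + b0) + (a1 + k1) * (a1 + b1) + (a2 + k2) * (a2 + b2) =
      (b1 + a2) * (a1 + b1) + (a0 + b2) * (a0 + b0) := by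
  have two : (2 : K) = 0 := CharTwo.two_eq_zero
  obtain rfl : k1 = k0 + a0 + b0 := by linear_combination e0 - (k0 + a0 + b0) * two
  obtain rfl : k2 = k0 + a0 + b0 + a1 + b1 := by
    linear_combination e1 - (k0 + a0 + b0 + a1 + b1) * two
  obtain rfl : b2 = a0 + b0 + a1 + b1 + a2 := by
    linear_combination e2 - (k0 + a0 + b0 + a1 + b1 + a2) * two
  linear_combination (a0 * a1 + a0 * a2 + a0 * b1 + a0 * k0 + a1 * a1 + a1 * a2 + a1 * b0 +
    a1 * b1 + a1 * k0 + a2 * a2 + a2 * b0 + a2 * b1 + a2 * k0 + b0 * b1 + b0 * k0 + b1 * k0) * two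

/-- The quadratic form is the sum over the real `m`-edges. Plan: reindex the left side by `vx`
(`sd (u e b) = b`, `sd (w f i b) = b`); per hexagon: legs `g1..g6`, inner values `k0 k1 k2`,
`g1+g2+k2+k0 = 0` etc.; both cases of `c f`; the identity is
`∑ = (g1+g6)(g1+g2) + (g4+g5)(g3+g4)`, `linear_combination`. -/
theorem bb_eq (g : V × Bool → K) (sy : ∀ h ∈ F.In, g (t.o h) = g h)
    (ev : ∀ v, g (v, false) + g (v, true) + g (t.m v, false) + g (t.m v, true) = 0) :
    ∑ v with F.sd v = false, (g (v, false) + g (v, true)) * (g (v, false) + g (t.m v, false)) =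
      bb (F.pi K g) (F.pi K g) := by
  have two : (2 : K) = 0 := CharTwo.two_eq_zero
  have mu : ∀ e, t.m (F.vx (.inl (e, false))) = F.u e true := fun e => F.m1 e false
  have mw : ∀ f i, t.m (F.vx (.inr (f, i, false))) = F.w f i true := fun f i => F.m2 f i false
  rw [sum_filter, ← F.vx.sum_comp]
  simp only [sd, Equiv.symm_apply_apply, Fintype.sum_sum_type, Fintype.sum_prod_type,
    Fintype.sum_bool, Sum.elim_inl, Sum.elim_inr, Bool.true_eq_false, if_false, if_true, zero_add,
    mu, mw, bb, LinearMap.mk₂_apply, pi, LinearMap.coe_mk, AddHom.coe_mk, Bool.false_eq_true]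
  congr 1
  refine sum_congr rfl fun f _ => ?_
  have k : ∀ i, g (F.w f i true, F.c f) = g (F.w f (i + 1) false, F.c f) := fun i => by
    rw [← sy _ ((F.mem_In_w f i true _).2 rfl)]
    exact congrArg g (F.hx f i)
  have e : ∀ i, g (F.w f i false, false) + g (F.w f i false, true) + g (F.w f i true, false) +
      g (F.w f i true, true) = 0 := fun i => by rw [← mw]; exact ev _
  have e' : ∀ i, g (F.lg f i false) + g (F.w f i false, F.c f) + g (F.lg f i true) +
      g (F.w f (i + 1) false, F.c f) = 0 := fun i => by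
    have := e i
    rw [← k i]
    unfold lg
    cases F.c f <;> simp only [Bool.not_false, Bool.not_true] <;> linear_combination this
  have q : ∀ i, (g (F.w f i false, false) + g (F.w f i false, true)) *
      (g (F.w f i false, false) + g (F.w f i true, false)) =
      (g (F.lg f i false) + g (F.w f i false, F.c f)) * (g (F.lg f i false) + g (F.lg f i true)) :=
    fun i => by
      have := e i
      unfold lg
      cases F.c f <;> simp only [Bool.not_false, Bool.not_true]
      linear_combination (g (F.w f i false, false) + g (F.w f i false, true)) * this -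
        (g (F.w f i false, false) + g (F.w f i false, true)) *
          (g (F.w f i false, true) + g (F.w f i true, true)) * two
  rw [Fin.sum_univ_three]
  exact (congrArg₂ _ (congrArg₂ _ (q 0) (q 1)) (q 2)).trans (g6_hex (e' 0) (e' 1) (e' 2))

end Fam
end Pool.Agent.MP_8c1b0d_co.RR

set_option autoImplicit false
set_option linter.unusedSectionVars false
open Finset Module

namespace Pool.Agent.MP_8c1b0d_co.RR
namespace Fam
variable {V E N : Type} [Fintype V] [DecidableEq V] [Fintype E] [DecidableEq E] [Fintype N]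
  [DecidableEq N] {t : Sy V} (F : Fam t E N) {K : Type} [Field K] [CharP K 2]
  (p : Pcs (F.L K)) {Y : Type} [Fintype Y] [DecidableEq Y]
  (c : (F.hs p).Cert (F.spl p) (F.rho p) Y)

theorem mem_A (v : V) : v ∈ F.A0 p ∪ F.A1 p ↔ F.ndv v ∈ F.spl p := by
  rw [mem_union, F.g5_A1]
  constructor
  · rintro (h | h)
    · exact ((F.g5_A0 p).1 h).1
    · exact h.1
  · intro h
    by_cases h0 : v ∈ F.A0 p
    · exact Or.inl h0
    · exact Or.inr ⟨h, h0⟩

/-- A flagged label has at least six unsplit vertices. Plan: `c.fl` gives `b = inl π`; no node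
of `π` is split unless `π` is that singleton (`p.disj`), and it contains an unsplit node. If `π`
contains a hexagon coordinate take its six vertices; otherwise `π` consists of ordinary
coordinates, `#π ≠ 1` (it would be split), `#π ≠ 2` (`p.two`, `Finset.card_eq_two`), so three
ordinary edges give six vertices (injectivity of `vx`). -/
theorem big (y : Y) (hy : y ∈ c.F) :
    6 ≤ #{v | v ∉ F.A0 p ∪ F.A1 p ∧ c.lab (v, false) = some y} := by
  obtain ⟨b, hb, ⟨v₀, hv₀, hb₀⟩, hl, -⟩ := c.fl y hy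
  obtain ⟨π, hπ, rfl⟩ := mem_map.1 hb
  have key : ∀ v, F.ndv v ∉ F.spl p → cd (F.ndv v) ∈ π →
      v ∈ ({v | v ∉ F.A0 p ∪ F.A1 p ∧ c.lab (v, false) = some y} : Finset V) := by
    intro v h1 h2
    simp only [mem_filter, mem_univ, true_and]
    exact ⟨fun h => h1 ((F.mem_A p v).1 h),
      (hl (v, false) h1).2 ((F.bl_inl p _ π).2 ⟨hπ, h2⟩)⟩
  have c₀ : cd v₀ ∈ π := ((F.bl_inl p _ π).1 hb₀).2
  have ns : ∀ e, cd (.inl e : E ⊕ N) ∈ π → (.inl e : E ⊕ N) ∉ F.spl p := by
    intro e he hs
    obtain ⟨e', h1, h2⟩ := (F.g5_spl p).1 hs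
    obtain rfl : e = e' := Sum.inl.inj h1
    have e1 : π = {.inl e} := by
      by_contra hne
      exact disjoint_left.1 (p.disj _ hπ _ h2 hne) he (mem_singleton_self _)
    refine hv₀ ((F.g5_spl p).2 ⟨e, ?_, h2⟩)
    rw [e1, mem_singleton] at c₀
    rcases v₀ with a | a
    · exact congrArg Sum.inl (Sum.inl.inj c₀)
    · exact absurd c₀ (by simp [cd])
  by_cases hf : ∃ f, cd (.inr f : E ⊕ N) ∈ π
  · obtain ⟨f, hf⟩ := hf
    rw [← F.g5_fib_w f]
    refine card_le_card fun v hv => ?_
    have e : F.ndv v = .inr f := by simpa only [mem_filter, mem_univ, true_and] using hv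
    refine key v (fun h => ?_) (e ▸ hf)
    obtain ⟨e', h1, -⟩ := (F.g5_spl p).1 h
    rw [e] at h1
    exact absurd h1 (by simp)
  have ord : ∀ q ∈ π, ∃ e, q = .inl e := by
    rintro (e | ⟨f, b⟩) hq
    · exact ⟨e, rfl⟩
    · exact absurd ⟨f, p.sat π hπ f b false hq⟩ hf
  have three : 2 < #π := by
    by_contra hlt
    have h1 := (p.ne π hπ).card_pos
    rcases (by omega : #π = 1 ∨ #π = 2) with h | h
    · obtain ⟨q, hq⟩ := card_eq_one.1 h
      obtain ⟨e, rfl⟩ := ord q (hq ▸ mem_singleton_self _)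
      exact ns e (hq ▸ mem_singleton_self _) ((F.g5_spl p).2 ⟨e, rfl, hq ▸ hπ⟩)
    · obtain ⟨q, q', hne, hq⟩ := card_eq_two.1 h
      obtain ⟨e, rfl⟩ := ord q (hq ▸ by simp)
      obtain ⟨e', rfl⟩ := ord q' (hq ▸ by simp)
      exact p.two π hπ e e' (fun h => hne (h ▸ rfl)) hq
  have hc : #{v | cd (F.ndv v) ∈ π} = 2 * #{e | cd (.inl e : E ⊕ N) ∈ π} +
      6 * #{f | cd (.inr f : E ⊕ N) ∈ π} :=
    g5_count F.ndv 2 6 F.g5_fib_u F.g5_fib_w fun v => cd v ∈ π
  have h3 : #π ≤ #{e | cd (.inl e : E ⊕ N) ∈ π} := by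
    refine card_le_card_of_surjOn Sum.inl fun q hq => ?_
    obtain ⟨e, rfl⟩ := ord q hq
    exact ⟨e, by simpa only [cd, Sum.map_inl, id_eq, coe_filter, mem_univ, true_and, Set.mem_ofPred_eq, SetLike.mem_coe] using hq, rfl⟩
  refine le_trans (by omega : 6 ≤ #{v | cd (F.ndv v) ∈ π}) (card_le_card fun v hv => ?_)
  have hv' : cd (F.ndv v) ∈ π := by simpa only [mem_filter, mem_univ, true_and] using hv
  refine key v (fun h => ?_) hv'
  obtain ⟨e, h1, -⟩ := (F.g5_spl p).1 h
  exact ns e (h1 ▸ hv') (h1 ▸ h)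

/-- Plan: `Sy.ori` with `P = {h | lab h = some y ∧ h ∉ D}` (`c.cl`), `τ = F.sd`. For `g` as in
`hQ` put `g' = ι ∘ g` (`ι = ZMod.castHom (dvd_refl 2) K`, injective). `c.fl` applies to `g'`
(node sums by `sum_u`, `sum_w`): `cut (class π) g' ∈ TT`, so `pr π (pi g') = pr π r`
(`pi_cls`, `pr_pr`) and `bb` of it vanishes (`p.q0`). `bb_eq`: the sum is
`bb (pi g') (pi g') = ∑ q, x.1 q * x.2 q`; a coordinate `q ∉ π` contributes zero: at a split
node one factor vanishes, at another node all values of `g'` vanish (`c.fl`, `mem_site`). -/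
theorem ori (y : Y) (hy : y ∈ c.F) : ∃ d : V × Bool → Bool,
    (∀ v ∉ F.A1 p, d (v, true) ≠ d (v, false)) ∧ (∀ v ∉ F.A0 p, ∀ b, d (t.m v, b) ≠ d (v, b)) ∧
    ∀ h, c.lab h = some y → h ∉ c.D → d (t.o h) ≠ d h := by
  have two : (2 : K) = 0 := CharTwo.two_eq_zero
  have A1m : ∀ v, t.m v ∈ F.A1 p ↔ v ∈ F.A1 p := fun v => by
    rw [F.g5_A1, F.g5_A1, F.ndv_m, F.A0_m]
  refine (t.ori (F.A0 p) (F.A1 p) (F.A0_m p) A1m
    (disjoint_left.2 fun v h0 h1 => ((F.g5_A1 p).1 h1).2 h0)
    {h | c.lab h = some y ∧ h ∉ c.D}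
    (fun h hh => by
      simp only [mem_filter, mem_univ, true_and] at hh ⊢
      exact c.cl h y hh.1 hh.2) F.sd F.sd_m ?_).imp
    fun d ⟨h1, h2, h3⟩ => ⟨h1, h2, fun h a b => h3 h (by simp only [mem_filter, mem_univ, a, b, not_false_eq_true, and_self])⟩
  intro g sy sp ev e0 e1
  obtain ⟨b, hb, -, hl, hT⟩ := c.fl y hy
  obtain ⟨π, hπ, rfl⟩ := mem_map.1 hb
  let ι := ZMod.castHom (dvd_refl 2) K
  let g' : V × Bool → K := fun h => ι (g h)
  have ev' : ∀ v, g' (v, false) + g' (v, true) + g' (t.m v, false) + g' (t.m v, true) = 0 := by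
    intro v
    simp only [g', ← map_add, ev v, map_zero]
  have sy' : ∀ h, g' (t.o h) = g' h := fun h => congrArg ι (sy h)
  have mu : ∀ e, t.m (F.u e false) = F.u e true := fun e => F.m1 e false
  have mw : ∀ f i, t.m (F.w f i false) = F.w f i true := fun f i => F.m2 f i false
  have sp' : ∀ h, g' h ≠ 0 → c.lab h = some y ∧ h ∉ c.D := by
    intro h hh
    by_contra hn
    exact hh (by simp only [g']; rw [sp h (by simpa only [mem_filter, mem_univ, true_and, not_and, Decidable.not_not] using hn), map_zero])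
  have hmem := hT g' sy' ?_ sp' ?_
  rotate_left
  · rintro ⟨v, k⟩ hv
    by_cases h0 : v ∈ F.A0 p
    · have := e0 v h0
      cases k <;> simp [rho, h0, g', this]
    · have := e1 v ((F.g5_A1 p).2 ⟨hv, h0⟩) k
      simp [rho, h0, g', this]
  · rintro (e | f)
    · rw [show chi K {h | (F.hs p).nd h = .inl e} ⬝ᵥ g' = _ from F.sum_u e g', ← mu]
      exact ev' _
    · rw [show chi K {h | (F.hs p).nd h = .inr f} ⬝ᵥ g' = _ from F.sum_w f g']
      exact sum_eq_zero fun i _ => by rw [← mw]; exact ev' _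
  obtain ⟨r, hr, er⟩ := hmem.2.1 π hπ
  have e2 : pr π r = pr π (F.pi K g') := by
    rw [er, show F.pi K (cut {h | (F.hs p).bl ((F.hs p).nd h) = Function.Embedding.inl π} g') = _
      from F.pi_cls p hπ g', pr_pr, inter_self]
  have q := p.q0 π hπ r hr
  rw [e2] at q
  apply ι.injective
  rw [map_zero, map_sum]
  simp only [map_mul, map_add]
  refine (F.bb_eq g' (fun h _ => sy' h) ev').trans (Eq.trans ?_ q)
  rw [bb_apply, bb_apply]
  refine sum_congr rfl fun a _ => ?_
  rw [s1_pr_fst, s1_pr_snd, cut_apply, cut_apply]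
  split_ifs with ha
  · rfl
  rw [zero_mul]
  have z : ∀ h, F.nd h = site a → F.nd h ∉ F.spl p → g' h = 0 := by
    intro h e hs
    by_contra hn
    have := ((F.bl_inl p _ π).1 ((hl h hs).1 (sp' h hn).1)).2
    exact ha ((F.mem_site p hπ a).1 (e ▸ this))
  rcases a with e | ⟨f, k⟩
  · rw [F.g1_pi1, F.g1_pi2]
    by_cases h0 : F.u e false ∈ F.A0 p
    · have : g' (F.u e false, true) = g' (F.u e false, false) := congrArg ι (e0 _ h0)
      rw [this, CharTwo.add_self_eq_zero, zero_mul]
    by_cases h1 : F.u e false ∈ F.A1 p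
    · have : g' (F.u e true, false) = g' (F.u e false, false) := by
        rw [← mu]; exact congrArg ι (e1 _ h1 false)
      rw [this, CharTwo.add_self_eq_zero, mul_zero]
    have ns : F.ndv (F.u e false) ∉ F.spl p := fun h =>
      (mem_union.1 ((F.mem_A p _).2 h)).elim h0 h1
    rw [z (F.u e false, false) (F.g1_nd_u e _ _) ns, z (F.u e false, true) (F.g1_nd_u e _ _) ns,
      add_zero, zero_mul]
  · have z' : ∀ i b, g' (F.lg f i b) = 0 := fun i b => z _ (F.g1_nd_lg f i b) fun h => by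
      obtain ⟨e, h1, -⟩ := (F.g5_spl p).1 h
      rw [F.g1_nd_lg] at h1
      exact absurd h1 (by simp)
    cases k
    · rw [F.g1_pi3, z', z', add_zero, zero_mul]
    · rw [F.g1_pi4, z', z', add_zero, zero_mul]

include c in
/-- Fields: `m0 m1` by `A0_m`, `ndv_m`; `l0 l1` by `c.lA` on split nodes and `c.lN` elsewhere;
`hexa` by `Max`, `cases`, `alt_w`, `c.lN`; `cnt` by `card_A`. -/
theorem rc : Nonempty (F.RC Y) := by
  have A1m : ∀ v, t.m v ∈ F.A1 p ↔ v ∈ F.A1 p := fun v => by
    rw [F.g5_A1, F.g5_A1, F.ndv_m, F.A0_m]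
  have ns : ∀ v, v ∉ F.A0 p → v ∉ F.A1 p → F.ndv v ∉ F.spl p := fun v h0 h1 h =>
    (mem_union.1 ((F.mem_A p v).2 h)).elim h0 h1
  refine ⟨⟨F.A0 p, F.A1 p, c.lab, c.D, c.F, fun v => (F.A0_m p v).2, fun v => (A1m v).2,
    disjoint_left.2 fun v h0 h1 => ((F.g5_A1 p).1 h1).2 h0, c.surj, ?_, ?_, ?_, ?_, c.cl,
    F.big p c, F.ori p c, ?_, ?_⟩⟩
  · intro v h1
    by_cases h0 : v ∈ F.A0 p
    · have := c.lA (v, false) ((F.g5_A0 p).1 h0).1
      simpa [rho, h0] using this
    · exact c.lN (v, false) (v, true) (ns v h0 h1) rfl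
  · intro v h0 b
    by_cases h1 : v ∈ F.A1 p
    · have := c.lA (v, b) ((F.g5_A1 p).1 h1).1
      simpa [rho, h0] using this
    · exact c.lN (v, b) (t.m v, b) (ns v h0 h1) (F.ndv_m v)
  · exact fun v hv => c.lX (v, false) fun h => hv ((F.mem_A p v).2 h)
  · exact fun h hh hA => c.dX h hh ((F.mem_A p h.1).1 hA)
  · intro f i b
    have nf : ∀ w, F.ndv w = .inr f → F.ndv w ∉ F.spl p := by
      intro w hw h
      obtain ⟨e, h1, -⟩ := (F.g5_spl p).1 h
      rw [hw] at h1
      exact absurd h1 (by simp)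
    exact ⟨fun h => nf _ (F.ndv_w f i b) ((F.mem_A p _).1 h),
      c.lN (F.w f 0 false, false) (F.w f i b, false) (nf _ (F.ndv_w f 0 false))
        ((F.ndv_w f i b).trans (F.ndv_w f 0 false).symm)⟩
  · have h1 := c.cnt
    have h2 := F.card_A p
    omega

end Fam
end Pool.Agent.MP_8c1b0d_co.RR

set_option autoImplicit false
open Finset Module

namespace Pool.Agent.MP_8c1b0d_co.RR

/-- a solution after swapping some hexagons, or a certificate -/
theorem Fam.glue {V E N : Type} [Fintype V] [DecidableEq V] [Nonempty V] [Fintype E]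
    [DecidableEq E] [Fintype N] [DecidableEq N] {t : Sy V} (F : Fam t E N) (cn : t.Cn) :
    (∃ (t' : Sy V) (I : N → Bool) (r : V → Bool), t.Swp t' (F.sw I) ∧ t'.Sol r) ∨
    ∃ (Y : Type) (_ : Fintype Y) (_ : DecidableEq Y), Nonempty (F.RC Y) := by
  obtain ⟨K, _, _, h⟩ := alg E N
  rcases h (F.L K) (fun θ => F.L_ac θ) F.L_iso with h | ⟨⟨p⟩⟩
  · exact Or.inl (F.lift cn h)
  · obtain ⟨Y, _, _, ⟨c⟩⟩ := (F.hs p).cert (F.spl_ok p) (F.input p)
    exact Or.inr ⟨Y, inferInstance, inferInstance, F.rc p c⟩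

end Pool.Agent.MP_8c1b0d_co.RR
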